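import Mathlib
import Pool.Agent.H15.EC.Colour

/-!
Maps from the edges to `k` colours that are proper outside a set `U` of vertices.
-/

set_option autoImplicit false
set_option linter.unusedSectionVars false

namespace Pool.Agent.H8.NO

open Finset Function

variable {V : Type} [Fintype V] [DecidableEq V]

/-- The colouring `c` is proper at the vertex `w`. -/
def PropAt (G : SimpleGraph V) {k : ℕ} (c : Sym2 V → Fin k) (w : V) : Prop :=
  ∀ x y, G.Adj w x → G.Adj w y → c s(w, x) = c s(w, y) → x = y

open Classical in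
/-- The number of maps to `k` colours, defined on all pairs, that are proper off `U`. -/
noncomputable def Z (k : ℕ) (G : SimpleGraph V) (U : Finset V) : ℕ :=
  (univ.filter fun c : Sym2 V → Fin k => ∀ w, w ∉ U → PropAt G c w).card

open Classical in
/-- The neighbours. -/
noncomputable def nbr (G : SimpleGraph V) (v : V) : Finset V := univ.filter (G.Adj v)

/-- The degree. -/
noncomputable def dg (G : SimpleGraph V) (v : V) : ℕ := (nbr G v).card

theorem mem_nbr (G : SimpleGraph V) (v w : V) : w ∈ nbr G v ↔ G.Adj v w := by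
  classical
  simp [nbr]

/-- The graph without the edges at `u`. -/
def del (G : SimpleGraph V) (u : V) : SimpleGraph V where
  Adj x y := G.Adj x y ∧ x ≠ u ∧ y ≠ u
  symm := ⟨fun _ _ h => ⟨h.1.symm, h.2.2, h.2.1⟩⟩
  loopless := ⟨fun _ h => h.1.ne rfl⟩

theorem del_adj (G : SimpleGraph V) (u x y : V) :
    (del G u).Adj x y ↔ G.Adj x y ∧ x ≠ u ∧ y ≠ u := Iff.rfl

theorem upd_count {k : ℕ} (e : Sym2 V) (A : Finset (Sym2 V → Fin k))
    (hA : ∀ c ∈ A, ∀ i, update c e i ∈ A) (P : (Sym2 V → Fin k) → Prop) [DecidablePred P] (m : ℕ)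
    (hP : ∀ c ∈ A, (univ.filter fun i => P (update c e i)).card = m) :
    k * (A.filter P).card = m * A.card := by
  have h1 : k * (A.filter P).card = ((A.filter P) ×ˢ (univ : Finset (Fin k))).card := by
    rw [Finset.card_product, Finset.card_univ, Fintype.card_fin, mul_comm]
  have h2 : ((A ×ˢ (univ : Finset (Fin k))).filter fun p => P (update p.1 e p.2)).card =
      ((A.filter P) ×ˢ (univ : Finset (Fin k))).card := by
    apply Finset.card_nbij' (fun p => (update p.1 e p.2, p.1 e))
      (fun p => (update p.1 e p.2, p.1 e))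
    · rintro ⟨c, i⟩ hp
      simp only [coe_filter, mem_product, mem_univ, and_true, Set.mem_ofPred_eq] at hp
      simp only [coe_product, Set.mem_prod, coe_filter, Set.mem_ofPred_eq, coe_univ, Set.mem_univ,
        and_true]
      exact ⟨hA c hp.1 i, hp.2⟩
    · rintro ⟨c, i⟩ hp
      simp only [coe_product, Set.mem_prod, coe_filter, Set.mem_ofPred_eq, coe_univ, Set.mem_univ,
        and_true] at hp
      simp only [coe_filter, mem_product, mem_univ, and_true, Set.mem_ofPred_eq]
      refine ⟨hA c hp.1 i, ?_⟩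
      rw [update_idem, update_eq_self]
      exact hp.2
    · rintro ⟨c, i⟩ _
      simp
    · rintro ⟨c, i⟩ _
      simp
  rw [h1, ← h2, Finset.card_filter, Finset.sum_product]
  simp_rw [← Finset.card_filter]
  rw [Finset.sum_congr rfl hP, Finset.sum_const, smul_eq_mul, mul_comm]

theorem propAt_congr {G : SimpleGraph V} {k : ℕ} {c c' : Sym2 V → Fin k} {w : V}
    (h : ∀ x, G.Adj w x → c s(w, x) = c' s(w, x)) : PropAt G c w ↔ PropAt G c' w := by
  unfold PropAt
  constructor
  · intro H x y hx hy hxy
    exact H x y hx hy (by rw [h x hx, h y hy, hxy])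
  · intro H x y hx hy hxy
    exact H x y hx hy (by rw [← h x hx, ← h y hy, hxy])

/-- Adding one edge `uw` with `u ∈ U`, `w ∉ U`. -/
theorem add_edge {k : ℕ} {G G' : SimpleGraph V} {U : Finset V} {u w : V} (huw : u ≠ w)
    (hn : ¬ G.Adj u w)
    (hG' : ∀ x y, G'.Adj x y ↔ G.Adj x y ∨ (x = u ∧ y = w) ∨ (x = w ∧ y = u))
    (hu : u ∈ U) (hw : w ∉ U) :
    k * Z k G' U = (k - dg G w) * Z k G U := by
  classical
  have hne : ∀ z x, G.Adj z x → s(z, x) ≠ s(u, w) := by
    intro z x hzx he
    rw [Sym2.eq_iff] at he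
    rcases he with ⟨rfl, rfl⟩ | ⟨rfl, rfl⟩
    · exact hn hzx
    · exact hn hzx.symm
  have hinv : ∀ (c : Sym2 V → Fin k) (i : Fin k) (z : V),
      PropAt G (update c s(u, w) i) z ↔ PropAt G c z := by
    intro c i z
    apply propAt_congr
    intro x hx
    rw [update_of_ne (hne z x hx)]
  have hset : (univ.filter fun c : Sym2 V → Fin k => ∀ z, z ∉ U → PropAt G' c z) =
      (univ.filter fun c : Sym2 V → Fin k => ∀ z, z ∉ U → PropAt G c z).filter
        (fun c => ∀ x, G.Adj w x → c s(w, x) ≠ c s(u, w)) := by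
    ext c
    simp only [mem_filter, mem_univ, true_and]
    constructor
    · intro h
      refine ⟨fun z hz x y hx hy => h z hz x y ((hG' z x).2 (Or.inl hx)) ((hG' z y).2 (Or.inl hy)),
        ?_⟩
      intro x hx he
      have := h w hw x u ((hG' w x).2 (Or.inl hx)) ((hG' w u).2 (Or.inr (Or.inr ⟨rfl, rfl⟩)))
        (by rw [he, Sym2.eq_swap])
      exact hn (this ▸ hx.symm)
    · rintro ⟨h1, h2⟩ z hz x y hx hy hxy
      have hzu : z ≠ u := fun h => hz (h ▸ hu)
      rcases (hG' z x).1 hx with hx | ⟨hx1, -⟩ | ⟨hx1, hx2⟩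
      · rcases (hG' z y).1 hy with hy | ⟨hy1, -⟩ | ⟨hy1, hy2⟩
        · exact h1 z hz x y hx hy hxy
        · exact absurd hy1 hzu
        · subst hy1 hy2
          exact absurd (hxy.trans (by rw [Sym2.eq_swap])) (h2 x hx)
      · exact absurd hx1 hzu
      · rcases (hG' z y).1 hy with hy | ⟨hy1, -⟩ | ⟨hy1, hy2⟩
        · subst hx1 hx2
          exact absurd (hxy.symm.trans (by rw [Sym2.eq_swap])) (h2 y hy)
        · exact absurd hy1 hzu
        · rw [hx2, hy2]
  unfold Z
  rw [hset]
  apply upd_count s(u, w)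
  · intro c hc i
    simp only [mem_filter, mem_univ, true_and] at hc ⊢
    intro z hz
    rw [hinv]
    exact hc z hz
  · intro c hc
    simp only [mem_filter, mem_univ, true_and] at hc
    have h3 : (univ.filter fun i : Fin k => ∀ x, G.Adj w x →
        update c s(u, w) i s(w, x) ≠ update c s(u, w) i s(u, w)) =
        univ \ (nbr G w).image (fun x => c s(w, x)) := by
      ext i
      simp only [mem_filter, mem_univ, true_and, mem_sdiff, mem_image, mem_nbr, update_self]
      constructor
      · rintro h ⟨x, hx, he⟩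
        apply h x hx
        rw [update_of_ne (hne w x hx), he]
      · intro h x hx he
        rw [update_of_ne (hne w x hx)] at he
        exact h ⟨x, hx, he⟩
    rw [h3, Finset.card_sdiff_of_subset (subset_univ _), Finset.card_univ, Fintype.card_fin,
      Finset.card_image_of_injOn]
    · rfl
    · intro x hx y hy hxy
      exact hc w hw x y ((mem_nbr G w x).1 hx) ((mem_nbr G w y).1 hy) hxy

/-- Adding an edge inside `U` changes nothing. -/
theorem add_edge_in {k : ℕ} {G G' : SimpleGraph V} {U : Finset V} {u w : V}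
    (hG' : ∀ x y, G'.Adj x y ↔ G.Adj x y ∨ (x = u ∧ y = w) ∨ (x = w ∧ y = u))
    (hu : u ∈ U) (hw : w ∈ U) : Z k G' U = Z k G U := by
  classical
  have h : ∀ z, z ∉ U → ∀ x, (G'.Adj z x ↔ G.Adj z x) := by
    intro z hz x
    rw [hG']
    constructor
    · rintro (h | ⟨rfl, -⟩ | ⟨rfl, -⟩)
      · exact h
      · exact absurd hu hz
      · exact absurd hw hz
    · exact Or.inl
  unfold Z
  congr 1
  ext c
  simp only [mem_filter, mem_univ, true_and]
  constructor
  · intro H z hz x y hx hy
    exact H z hz x y ((h z hz x).2 hx) ((h z hz y).2 hy)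
  · intro H z hz x y hx hy
    exact H z hz x y ((h z hz x).1 hx) ((h z hz y).1 hy)

/-- The graph with only the edges from `u` to `T` kept at `u`. -/
def keep (G : SimpleGraph V) (u : V) (T : Finset V) : SimpleGraph V where
  Adj x y := G.Adj x y ∧ (x = u → y ∈ T) ∧ (y = u → x ∈ T)
  symm := ⟨fun _ _ h => ⟨h.1.symm, h.2.2, h.2.1⟩⟩
  loopless := ⟨fun _ h => h.1.ne rfl⟩

theorem keep_empty (G : SimpleGraph V) (u : V) : keep G u ∅ = del G u := by
  ext x y
  simp [keep, del]

theorem keep_nbr (G : SimpleGraph V) (u : V) : keep G u (nbr G u) = G := by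
  ext x y
  simp only [keep, mem_nbr]
  constructor
  · exact fun h => h.1
  · intro h
    exact ⟨h, fun hx => hx ▸ h, fun hy => hy ▸ h.symm⟩

theorem nbr_del (G : SimpleGraph V) (u w : V) (hw : w ≠ u) : nbr (del G u) w = (nbr G w).erase u := by
  ext x
  simp only [mem_nbr, del_adj, mem_erase]
  constructor
  · rintro ⟨h1, h2, h3⟩; exact ⟨h3, h1⟩
  · rintro ⟨h1, h2⟩; exact ⟨h2, hw, h1⟩

theorem dg_del_of_adj {G : SimpleGraph V} {u w : V} (h : G.Adj u w) :
    dg (del G u) w + 1 = dg G w := by
  rw [dg, nbr_del G u w h.ne', dg]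
  exact Finset.card_erase_add_one ((mem_nbr G w u).2 h.symm)

theorem dg_del_of_not_adj {G : SimpleGraph V} {u w : V} (hw : w ≠ u) (h : ¬ G.Adj u w) :
    dg (del G u) w = dg G w := by
  rw [dg, nbr_del G u w hw, dg, Finset.erase_eq_of_notMem]
  rw [mem_nbr]
  exact fun h' => h h'.symm

theorem dg_keep {G : SimpleGraph V} {u w : V} {T : Finset V} (h : G.Adj u w) (hw : w ∉ T) :
    dg (keep G u T) w + 1 = dg G w := by
  have : nbr (keep G u T) w = nbr (del G u) w := by
    ext x
    simp only [mem_nbr, keep, del]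
    constructor
    · rintro ⟨h1, h2, h3⟩
      exact ⟨h1, h.ne', fun hx => hw (h3 hx)⟩
    · rintro ⟨h1, h2, h3⟩
      exact ⟨h1, fun hx => absurd hx h2, fun hx => absurd hx h3⟩
  rw [dg, this]
  exact dg_del_of_adj h

theorem Z_keep {k : ℕ} (G : SimpleGraph V) {U : Finset V} {u : V} (hu : u ∈ U) (T : Finset V)
    (hT : T ⊆ nbr G u) :
    Z k (keep G u T) U * k ^ (T \ U).card =
      Z k (del G u) U * ∏ w ∈ T \ U, (k + 1 - dg G w) := by
  classical
  induction T using Finset.induction_on with
  | empty => simp [keep_empty]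
  | insert w T hw ih =>
    have hT' : T ⊆ nbr G u := fun x hx => hT (mem_insert_of_mem hx)
    have huw : G.Adj u w := (mem_nbr G u w).1 (hT (mem_insert_self w T))
    have hG' : ∀ x y, (keep G u (insert w T)).Adj x y ↔
        (keep G u T).Adj x y ∨ (x = u ∧ y = w) ∨ (x = w ∧ y = u) := by
      intro x y
      simp only [keep, mem_insert]
      constructor
      · rintro ⟨h1, h2, h3⟩
        by_cases hx : x = u
        · subst hx
          rcases h2 rfl with rfl | hy
          · exact Or.inr (Or.inl ⟨rfl, rfl⟩)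
          · exact Or.inl ⟨h1, fun _ => hy, fun hh => absurd hh h1.ne'⟩
        · by_cases hy : y = u
          · subst hy
            rcases h3 rfl with rfl | hx'
            · exact Or.inr (Or.inr ⟨rfl, rfl⟩)
            · exact Or.inl ⟨h1, fun hh => absurd hh hx, fun _ => hx'⟩
          · exact Or.inl ⟨h1, fun hh => absurd hh hx, fun hh => absurd hh hy⟩
      · rintro (⟨h1, h2, h3⟩ | ⟨rfl, rfl⟩ | ⟨rfl, rfl⟩)
        · exact ⟨h1, fun hh => Or.inr (h2 hh), fun hh => Or.inr (h3 hh)⟩
        · exact ⟨huw, fun _ => Or.inl rfl, fun hh => absurd hh huw.ne'⟩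
        · exact ⟨huw.symm, fun hh => absurd hh huw.ne', fun _ => Or.inl rfl⟩
    have hn : ¬ (keep G u T).Adj u w := by
      rintro ⟨-, h, -⟩
      exact hw (h rfl)
    by_cases hwU : w ∈ U
    · rw [insert_sdiff_of_mem _ hwU, add_edge_in hG' hu hwU]
      exact ih hT'
    · rw [insert_sdiff_of_notMem _ hwU, card_insert_of_notMem (by simp [hw]),
        Finset.prod_insert (by simp [hw]), pow_succ]
      have h1 := add_edge (k := k) huw.ne hn hG' hu hwU
      have h2 := dg_keep (T := T) huw hw
      have h3 : k + 1 - dg G w = k - dg (keep G u T) w := by omega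
      rw [h3]
      calc Z k (keep G u (insert w T)) U * (k ^ (T \ U).card * k)
          = (k * Z k (keep G u (insert w T)) U) * k ^ (T \ U).card := by ring
        _ = (k - dg (keep G u T) w) * (Z k (keep G u T) U * k ^ (T \ U).card) := by
            rw [h1]; ring
        _ = _ := by rw [ih hT']; ring

theorem Z_del {k : ℕ} (G : SimpleGraph V) {U : Finset V} {u : V} (hu : u ∈ U) :
    Z k G U * k ^ (nbr G u \ U).card = Z k (del G u) U * ∏ w ∈ nbr G u \ U, (k + 1 - dg G w) := by
  have := Z_keep (k := k) G hu (nbr G u) (subset_refl _)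
  rwa [keep_nbr] at this

theorem Z_del_insert {k : ℕ} (G : SimpleGraph V) (U : Finset V) (u : V) :
    Z k (del G u) (insert u U) = Z k (del G u) U := by
  classical
  unfold Z
  congr 1
  ext c
  simp only [mem_filter, mem_univ, true_and, mem_insert, not_or]
  constructor
  · intro h z hz
    by_cases hzu : z = u
    · subst hzu
      intro x y hx
      exact absurd rfl hx.2.1
    · exact h z ⟨hzu, hz⟩
  · intro h z hz
    exact h z hz.2

/-- Isomorphism invariance. -/
theorem Z_iso {k : ℕ} {G H : SimpleGraph V} (f : V ≃ V) (hf : ∀ x y, G.Adj x y ↔ H.Adj (f x) (f y))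
    (U : Finset V) : Z k G U = Z k H (U.map f.toEmbedding) := by
  classical
  unfold Z
  apply Finset.card_nbij' (fun c => c ∘ Sym2.map f.symm) (fun c => c ∘ Sym2.map f)
  · intro c hc
    simp only [coe_filter, mem_univ, true_and, Set.mem_ofPred_eq] at hc ⊢
    intro w hw x y hx hy hxy
    have h1 : f.symm w ∉ U := fun h => hw (by
      rw [mem_map]; exact ⟨f.symm w, h, by simp⟩)
    have h2 := hc (f.symm w) h1 (f.symm x) (f.symm y) ((hf _ _).2 (by simpa using hx))
      ((hf _ _).2 (by simpa using hy)) (by simpa using hxy)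
    exact f.symm.injective h2
  · intro c hc
    simp only [coe_filter, mem_univ, true_and, Set.mem_ofPred_eq] at hc ⊢
    intro w hw x y hx hy hxy
    have h1 : f w ∉ U.map f.toEmbedding := fun h => hw (by
      rw [mem_map] at h
      obtain ⟨a, ha, hb⟩ := h
      exact f.injective hb ▸ ha)
    have h2 := hc (f w) h1 (f x) (f y) ((hf _ _).1 hx) ((hf _ _).1 hy) (by simpa using hxy)
    exact f.injective h2
  · intro c _
    ext e
    simp [Sym2.map_map, comp_apply]
  · intro c _
    ext e
    simp [Sym2.map_map, comp_apply]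

theorem dg_iso {G H : SimpleGraph V} (f : V ≃ V) (hf : ∀ x y, G.Adj x y ↔ H.Adj (f x) (f y))
    (v : V) : dg G v = dg H (f v) := by
  unfold dg
  have : nbr H (f v) = (nbr G v).map f.toEmbedding := by
    ext x
    rw [mem_nbr, mem_map]
    constructor
    · intro hx
      exact ⟨f.symm x, (mem_nbr G v _).2 ((hf _ _).2 (by simpa using hx)), by simp⟩
    · rintro ⟨a, ha, rfl⟩
      exact (hf _ _).1 ((mem_nbr G v a).1 ha)
  rw [this, card_map]

end Pool.Agent.H8.NO
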