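import Mathlib
import Pool.Agent.H8.NO.Count

/-!
Reconstruction of the numbers of maps that are improper at most at one or two vertices.
-/

set_option autoImplicit false
set_option linter.unusedSectionVars false

namespace Pool.Agent.H8.NO

open Finset Function
open Pool.Agent.H15.EC (Deck PIso)

variable {V : Type} [Fintype V] [DecidableEq V]

theorem inc_eq (G : SimpleGraph V) (v : V) : Pool.Agent.H15.EC.inc G v = dg G v := by
  classical
  unfold Pool.Agent.H15.EC.inc dg
  have : (univ.filter fun e : Sym2 V => e ∈ G.edgeSet ∧ v ∈ e) =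
      (nbr G v).image (fun w => s(v, w)) := by
    ext e
    simp only [mem_filter, mem_univ, true_and, mem_image, mem_nbr]
    constructor
    · rintro ⟨he, w, rfl⟩
      exact ⟨w, he, rfl⟩
    · rintro ⟨w, hw, rfl⟩
      exact ⟨hw, Sym2.mem_mk_left v w⟩
  rw [this, Finset.card_image_of_injective]
  intro a b hab
  exact Sym2.congr_right.1 hab

theorem dg_rec {G H : SimpleGraph V} {σ : V ≃ V} (hd : Deck G H σ) (hn : 3 ≤ Fintype.card V)
    (v : V) : dg G v = dg H (σ v) := by
  rw [← inc_eq, ← inc_eq]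
  exact Pool.Agent.H15.EC.inc_rec hd hn v

theorem del_iso {G H : SimpleGraph V} {f : V ≃ V} {u : V} (hf : PIso G H f (univ.erase u))
    (x y : V) : (del G u).Adj x y ↔ (del H (f u)).Adj (f x) (f y) := by
  simp only [del_adj, ne_eq, f.injective.eq_iff]
  constructor
  · rintro ⟨h, hx, hy⟩
    exact ⟨(hf x (by simp [hx]) y (by simp [hy])).1 h, hx, hy⟩
  · rintro ⟨h, hx, hy⟩
    exact ⟨(hf x (by simp [hx]) y (by simp [hy])).2 h, hx, hy⟩

/-- The number of neighbours of `u` of degree `j`. -/
noncomputable def nb (G : SimpleGraph V) (u : V) (j : ℕ) : ℕ :=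
  ((nbr G u).filter fun w => dg G w = j).card

open Classical in
/-- The number of other non-neighbours of `u` of degree `j`. -/
noncomputable def na (G : SimpleGraph V) (u : V) (j : ℕ) : ℕ :=
  (univ.filter fun w => w ≠ u ∧ ¬ G.Adj u w ∧ dg G w = j).card

theorem card_del (G : SimpleGraph V) (u : V) (j : ℕ) :
    (univ.filter fun w => w ≠ u ∧ dg (del G u) w = j).card = na G u j + nb G u (j + 1) := by
  classical
  unfold na nb
  rw [← Finset.card_union_of_disjoint]
  · congr 1
    ext w
    simp only [mem_filter, mem_univ, true_and, mem_union, mem_nbr]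
    constructor
    · rintro ⟨h1, h2⟩
      by_cases h : G.Adj u w
      · right
        have := dg_del_of_adj h
        exact ⟨h, by omega⟩
      · left
        have := dg_del_of_not_adj h1 h
        exact ⟨h1, h, by omega⟩
    · rintro (⟨h1, h2, h3⟩ | ⟨h1, h2⟩)
      · exact ⟨h1, by rw [dg_del_of_not_adj h1 h2, h3]⟩
      · have := dg_del_of_adj h1
        exact ⟨h1.ne', by omega⟩
  · rw [Finset.disjoint_left]
    intro w h1 h2
    simp only [mem_filter, mem_univ, true_and, mem_nbr] at h1 h2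
    exact h1.2.1 h2.1

theorem card_all (G : SimpleGraph V) (u : V) (j : ℕ) :
    (univ.filter fun w => w ≠ u ∧ dg G w = j).card = na G u j + nb G u j := by
  classical
  unfold na nb
  rw [← Finset.card_union_of_disjoint]
  · congr 1
    ext w
    simp only [mem_filter, mem_univ, true_and, mem_union, mem_nbr]
    constructor
    · rintro ⟨h1, h2⟩
      by_cases h : G.Adj u w
      · exact Or.inr ⟨h, h2⟩
      · exact Or.inl ⟨h1, h, h2⟩
    · rintro (⟨h1, h2, h3⟩ | ⟨h1, h2⟩)
      · exact ⟨h1, h3⟩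
      · exact ⟨h1.ne', h2⟩
  · rw [Finset.disjoint_left]
    intro w h1 h2
    simp only [mem_filter, mem_univ, true_and, mem_nbr] at h1 h2
    exact h1.2.1 h2.1

theorem nb_zero (G : SimpleGraph V) (u : V) : nb G u 0 = 0 := by
  classical
  unfold nb
  rw [Finset.card_eq_zero, Finset.filter_eq_empty_iff]
  intro w hw h0
  rw [dg, Finset.card_eq_zero] at h0
  have : u ∈ nbr G w := (mem_nbr G w u).2 ((mem_nbr G u w).1 hw).symm
  rw [h0] at this
  exact absurd this (notMem_empty u)

theorem card_all_rec {G H : SimpleGraph V} {σ : V ≃ V} (hd : Deck G H σ)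
    (hn : 3 ≤ Fintype.card V) (u : V) (j : ℕ) :
    (univ.filter fun w => w ≠ u ∧ dg G w = j).card =
      (univ.filter fun w => w ≠ σ u ∧ dg H w = j).card := by
  apply Finset.card_nbij' σ σ.symm
  · intro w hw
    simp only [coe_filter, mem_univ, true_and, Set.mem_ofPred_eq] at hw ⊢
    exact ⟨fun h => hw.1 (σ.injective h), by rw [← dg_rec hd hn, hw.2]⟩
  · intro w hw
    simp only [coe_filter, mem_univ, true_and, Set.mem_ofPred_eq] at hw ⊢
    refine ⟨fun h => hw.1 (by rw [← h, σ.apply_symm_apply]), ?_⟩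
    rw [dg_rec hd hn, σ.apply_symm_apply, hw.2]
  · intro w _; simp
  · intro w _; simp

theorem card_del_rec {G H : SimpleGraph V} {σ : V ≃ V} (hd : Deck G H σ) (u : V) (j : ℕ) :
    (univ.filter fun w => w ≠ u ∧ dg (del G u) w = j).card =
      (univ.filter fun w => w ≠ σ u ∧ dg (del H (σ u)) w = j).card := by
  obtain ⟨f, hfu, hf⟩ := hd u
  have hiso := del_iso hf
  rw [hfu] at hiso
  have hdg := dg_iso f hiso
  apply Finset.card_nbij' f f.symm
  · intro w hw
    simp only [coe_filter, mem_univ, true_and, Set.mem_ofPred_eq] at hw ⊢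
    exact ⟨fun h => hw.1 (f.injective (h.trans hfu.symm)), by rw [← hdg, hw.2]⟩
  · intro w hw
    simp only [coe_filter, mem_univ, true_and, Set.mem_ofPred_eq] at hw ⊢
    refine ⟨fun h => hw.1 (by rw [← hfu, ← h, f.apply_symm_apply]), ?_⟩
    rw [hdg, f.apply_symm_apply, hw.2]
  · intro w _; simp
  · intro w _; simp

theorem nb_na_rec {G H : SimpleGraph V} {σ : V ≃ V} (hd : Deck G H σ)
    (hn : 3 ≤ Fintype.card V) (u : V) (j : ℕ) :
    nb G u j = nb H (σ u) j ∧ na G u j = na H (σ u) j := by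
  have hstep : ∀ j, nb G u j = nb H (σ u) j → na G u j = na H (σ u) j := by
    intro j h
    have := card_all_rec hd hn u j
    rw [card_all, card_all] at this
    omega
  induction j with
  | zero =>
    have h0 : nb G u 0 = nb H (σ u) 0 := by rw [nb_zero, nb_zero]
    exact ⟨h0, hstep 0 h0⟩
  | succ j ih =>
    have h1 := card_del_rec hd u j
    rw [card_del, card_del] at h1
    have h2 : nb G u (j + 1) = nb H (σ u) (j + 1) := by
      have := ih.2
      omega
    exact ⟨h2, hstep (j + 1) h2⟩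

/-- The factor of the vertex `u`. -/
noncomputable def KK (k : ℕ) (G : SimpleGraph V) (u : V) : ℕ := ∏ w ∈ nbr G u, (k + 1 - dg G w)

theorem KK_rec {G H : SimpleGraph V} {σ : V ≃ V} (hd : Deck G H σ)
    (hn : 3 ≤ Fintype.card V) (k : ℕ) (u : V) : KK k G u = KK k H (σ u) := by
  have h : (nbr G u).val.map (dg G) = (nbr H (σ u)).val.map (dg H) := by
    ext j
    have h1 := (nb_na_rec hd hn u j).1
    unfold nb at h1
    rw [Multiset.count_map, Multiset.count_map]
    simp only [Finset.card_def, Finset.filter_val] at h1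
    simp only [eq_comm (a := j)]
    exact h1
  unfold KK
  have h2 : ∀ (G : SimpleGraph V) (u : V), ∏ w ∈ nbr G u, (k + 1 - dg G w) =
      (((nbr G u).val.map (dg G)).map fun j => k + 1 - j).prod := by
    intro G u
    rw [Multiset.map_map]
    rfl
  rw [h2, h2, h]

theorem Z1_rec {G H : SimpleGraph V} {σ : V ≃ V} (hd : Deck G H σ)
    (hn : 3 ≤ Fintype.card V) {k : ℕ} (hk : 0 < k) (u : V) : Z k G {u} = Z k H {σ u} := by
  have key : ∀ (G : SimpleGraph V) (u : V), Z k G {u} * k ^ dg G u = Z k (del G u) ∅ * KK k G u := by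
    intro G u
    have h1 := Z_del (k := k) G (mem_singleton_self u)
    have h2 : nbr G u \ {u} = nbr G u := by
      rw [Finset.sdiff_singleton_eq_erase, Finset.erase_eq_of_notMem]
      rw [mem_nbr]; exact fun h => h.ne rfl
    have h3 : Z k (del G u) {u} = Z k (del G u) ∅ := by
      rw [← Z_del_insert G ∅ u, insert_empty_eq]
    rw [h2, h3] at h1
    exact h1
  obtain ⟨f, hfu, hf⟩ := hd u
  have hiso := del_iso hf
  rw [hfu] at hiso
  have h1 := key G u
  have h2 := key H (σ u)
  rw [Z_iso f hiso, Finset.map_empty, KK_rec hd hn, ← h2, dg_rec hd hn u] at h1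
  exact Nat.eq_of_mul_eq_mul_right (pow_pos hk _) h1

open Classical in
/-- The sum over the ordered non-adjacent pairs of degrees `i`, `j`. -/
noncomputable def SA (k : ℕ) (G : SimpleGraph V) (i j : ℕ) : ℕ :=
  ∑ u, ∑ v, if u ≠ v ∧ ¬ G.Adj u v ∧ dg G u = i ∧ dg G v = j then Z k G {u, v} else 0

open Classical in
/-- The sum over the ordered adjacent pairs of degrees `i`, `j`. -/
noncomputable def SB (k : ℕ) (G : SimpleGraph V) (i j : ℕ) : ℕ :=
  ∑ u, ∑ v, if G.Adj u v ∧ dg G u = i ∧ dg G v = j then Z k G {u, v} else 0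

open Classical in
/-- The sum read off from the cards. -/
noncomputable def ST (k : ℕ) (G : SimpleGraph V) (i j : ℕ) : ℕ :=
  ∑ u, if dg G u = i then KK k G u * ∑ v, (if v ≠ u ∧ dg (del G u) v = j then
    Z k (del G u) {v} else 0) else 0

theorem SA_symm (k : ℕ) (G : SimpleGraph V) (i j : ℕ) : SA k G i j = SA k G j i := by
  classical
  unfold SA
  rw [Finset.sum_comm]
  refine Finset.sum_congr rfl fun u _ => Finset.sum_congr rfl fun v _ => ?_
  rw [Finset.pair_comm v u]
  congr 1
  rw [G.adj_comm v u, eq_iff_iff]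
  constructor
  · rintro ⟨h1, h2, h3, h4⟩; exact ⟨h1.symm, h2, h4, h3⟩
  · rintro ⟨h1, h2, h3, h4⟩; exact ⟨h1.symm, h2, h4, h3⟩

theorem SB_symm (k : ℕ) (G : SimpleGraph V) (i j : ℕ) : SB k G i j = SB k G j i := by
  classical
  unfold SB
  rw [Finset.sum_comm]
  refine Finset.sum_congr rfl fun u _ => Finset.sum_congr rfl fun v _ => ?_
  rw [Finset.pair_comm v u]
  congr 1
  rw [G.adj_comm v u, eq_iff_iff]
  constructor
  · rintro ⟨h2, h3, h4⟩; exact ⟨h2, h4, h3⟩
  · rintro ⟨h2, h3, h4⟩; exact ⟨h2, h4, h3⟩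

theorem ST_rec {G H : SimpleGraph V} {σ : V ≃ V} (hd : Deck G H σ)
    (hn : 3 ≤ Fintype.card V) (k i j : ℕ) : ST k G i j = ST k H i j := by
  classical
  unfold ST
  rw [← Equiv.sum_comp σ (fun u => if dg H u = i then KK k H u * ∑ v,
    (if v ≠ u ∧ dg (del H u) v = j then Z k (del H u) {v} else 0) else 0)]
  refine Finset.sum_congr rfl fun u _ => ?_
  rw [dg_rec hd hn u]
  congr 1
  rw [KK_rec hd hn]
  congr 1
  obtain ⟨f, hfu, hf⟩ := hd u
  have hiso := del_iso hf
  rw [hfu] at hiso
  have hdg := dg_iso f hiso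
  rw [← Equiv.sum_comp f (fun v => if v ≠ σ u ∧ dg (del H (σ u)) v = j then
    Z k (del H (σ u)) {v} else 0)]
  refine Finset.sum_congr rfl fun v _ => ?_
  rw [hdg v, Z_iso f hiso, Finset.map_singleton, ← hfu]
  simp only [ne_eq, f.injective.eq_iff, Equiv.coe_toEmbedding]

theorem pair_nonadj {k : ℕ} {G : SimpleGraph V} {u v : V} (huv : u ≠ v) (h : ¬ G.Adj u v) :
    Z k G {u, v} * k ^ dg G u = Z k (del G u) {v} * KK k G u := by
  have h1 := Z_del (k := k) G (U := {u, v}) (mem_insert_self u {v})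
  have h2 : nbr G u \ {u, v} = nbr G u := by
    rw [Finset.sdiff_eq_self_iff_disjoint, Finset.disjoint_left]
    intro w hw hw'
    rw [mem_nbr] at hw
    rcases mem_insert.1 hw' with rfl | hw'
    · exact hw.ne rfl
    · exact h ((mem_singleton.1 hw') ▸ hw)
  have h3 : Z k (del G u) {u, v} = Z k (del G u) {v} := Z_del_insert G {v} u
  rw [h2, h3] at h1
  exact h1

theorem pair_adj {k : ℕ} {G : SimpleGraph V} {u v : V} (h : G.Adj u v) :
    k * (Z k (del G u) {v} * KK k G u) = Z k G {u, v} * k ^ dg G u * (k + 1 - dg G v) := by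
  have h1 := Z_del (k := k) G (U := {u, v}) (mem_insert_self u {v})
  have h2 : nbr G u \ {u, v} = (nbr G u).erase v := by
    ext w
    simp only [mem_sdiff, mem_nbr, mem_insert, mem_singleton, mem_erase, not_or]
    constructor
    · rintro ⟨a, b, c⟩; exact ⟨c, a⟩
    · rintro ⟨a, b⟩; exact ⟨b, b.ne', a⟩
  have h3 : Z k (del G u) {u, v} = Z k (del G u) {v} := Z_del_insert G {v} u
  have hv : v ∈ nbr G u := (mem_nbr G u v).2 h
  rw [h2, h3] at h1
  have h4 : KK k G u = (k + 1 - dg G v) * ∏ w ∈ (nbr G u).erase v, (k + 1 - dg G w) :=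
    (Finset.mul_prod_erase _ _ hv).symm
  have h5 : k ^ dg G u = k * k ^ ((nbr G u).erase v).card := by
    rw [dg, ← Finset.card_erase_add_one hv, pow_succ, mul_comm]
  rw [h4, h5]
  calc k * (Z k (del G u) {v} * ((k + 1 - dg G v) * ∏ w ∈ (nbr G u).erase v, (k + 1 - dg G w)))
      = k * (k + 1 - dg G v) * (Z k (del G u) {v} * ∏ w ∈ (nbr G u).erase v, (k + 1 - dg G w)) := by
        ring
    _ = _ := by rw [← h1]; ring

theorem ST_eq (k : ℕ) (G : SimpleGraph V) (i j : ℕ) :
    k * ST k G i j = k ^ (i + 1) * SA k G i j + k ^ i * (k - j) * SB k G i (j + 1) := by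
  classical
  unfold ST SA SB
  rw [Finset.mul_sum, Finset.mul_sum, Finset.mul_sum, ← Finset.sum_add_distrib]
  refine Finset.sum_congr rfl fun u _ => ?_
  by_cases hi : dg G u = i
  · rw [if_pos hi, Finset.mul_sum, Finset.mul_sum, Finset.mul_sum, Finset.mul_sum,
      ← Finset.sum_add_distrib]
    refine Finset.sum_congr rfl fun v _ => ?_
    by_cases hv : v = u
    · subst hv
      simp
    · by_cases ha : G.Adj u v
      · have hdel := dg_del_of_adj ha
        rw [if_neg (c := u ≠ v ∧ ¬ G.Adj u v ∧ dg G u = i ∧ dg G v = j) (fun h => h.2.1 ha)]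
        by_cases hj : dg G v = j + 1
        · rw [if_pos ⟨hv, by omega⟩, if_pos ⟨ha, hi, hj⟩, mul_comm (KK k G u), pair_adj ha, hi, hj]
          have : k + 1 - (j + 1) = k - j := by omega
          rw [this]; ring
        · rw [if_neg (fun h => hj (by omega)), if_neg (fun h => hj h.2.2)]
          simp
      · have hdel := dg_del_of_not_adj hv ha
        rw [if_neg (c := G.Adj u v ∧ dg G u = i ∧ dg G v = j + 1) (fun h => ha h.1)]
        by_cases hj : dg G v = j
        · rw [if_pos ⟨hv, by omega⟩, if_pos ⟨fun h => hv h.symm, ha, hi, hj⟩,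
            mul_comm (KK k G u), ← pair_nonadj (fun h => hv h.symm) ha, hi]
          ring
        · rw [if_neg (fun h => hj (by omega)), if_neg (fun h => hj h.2.2.2)]
          simp
  · rw [if_neg hi]
    have h1 : ∀ v, ¬ (u ≠ v ∧ ¬ G.Adj u v ∧ dg G u = i ∧ dg G v = j) := fun v h => hi h.2.2.1
    have h2 : ∀ v, ¬ (G.Adj u v ∧ dg G u = i ∧ dg G v = j + 1) := fun v h => hi h.2.1
    simp [h1, h2]

theorem SB_zero (k : ℕ) (G : SimpleGraph V) (j : ℕ) : SB k G 0 j = 0 := by
  classical
  unfold SB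
  refine Finset.sum_eq_zero fun u _ => Finset.sum_eq_zero fun v _ => if_neg ?_
  rintro ⟨h1, h2, -⟩
  rw [dg, Finset.card_eq_zero] at h2
  have : v ∈ nbr G u := (mem_nbr G u v).2 h1
  rw [h2] at this
  exact absurd this (notMem_empty v)

theorem SA_large {k j : ℕ} {G : SimpleGraph V} (h : ∀ v, dg G v < j) (i : ℕ) : SA k G i j = 0 := by
  classical
  unfold SA
  refine Finset.sum_eq_zero fun u _ => Finset.sum_eq_zero fun v _ => if_neg ?_
  rintro ⟨-, -, -, h2⟩
  exact absurd h2 (h v).ne

theorem SB_large {k j : ℕ} {G : SimpleGraph V} (h : ∀ v, dg G v < j) (i : ℕ) : SB k G i j = 0 := by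
  classical
  unfold SB
  refine Finset.sum_eq_zero fun u _ => Finset.sum_eq_zero fun v _ => if_neg ?_
  rintro ⟨-, -, h2⟩
  exact absurd h2 (h v).ne

theorem pairs_rec {G H : SimpleGraph V} {σ : V ≃ V} (hd : Deck G H σ)
    (hn : 3 ≤ Fintype.card V) {k : ℕ} (hk : 0 < k) (hG : ∀ v, dg G v ≤ k) (t : ℕ) :
    ∀ j, k + 1 ≤ j + t → ∀ i, SA k G i j = SA k H i j ∧ SB k G i j = SB k H i j := by
  have hH : ∀ v, dg H v ≤ k := by
    intro v
    have := dg_rec hd hn (σ.symm v)
    rw [σ.apply_symm_apply] at this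
    rw [← this]; exact hG _
  induction t with
  | zero =>
    intro j hj i
    have h1 : ∀ v, dg G v < j := fun v => by have := hG v; omega
    have h2 : ∀ v, dg H v < j := fun v => by have := hH v; omega
    rw [SA_large h1, SA_large h2, SB_large h1, SB_large h2]
    exact ⟨rfl, rfl⟩
  | succ t ih =>
    intro j hj
    have hA : ∀ i, SA k G i j = SA k H i j := by
      intro i
      have h1 := ST_eq k G i j
      have h2 := ST_eq k H i j
      rw [← ST_rec hd hn, h1, (ih (j + 1) (by omega) i).2] at h2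
      exact Nat.eq_of_mul_eq_mul_left (pow_pos hk _) (Nat.add_right_cancel h2)
    intro i
    refine ⟨hA i, ?_⟩
    rcases Nat.eq_zero_or_pos i with rfl | hi
    · rw [SB_zero, SB_zero]
    by_cases hik : i ≤ k
    · obtain ⟨i', rfl⟩ : ∃ i', i = i' + 1 := ⟨i - 1, by omega⟩
      have h1 := ST_eq k G j i'
      have h2 := ST_eq k H j i'
      rw [← ST_rec hd hn, h1, SA_symm k G, SA_symm k H, hA i'] at h2
      have h3 := Nat.add_left_cancel h2
      rw [SB_symm k G, SB_symm k H]
      refine Nat.eq_of_mul_eq_mul_left (Nat.mul_pos (pow_pos hk j) ?_) h3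
      omega
    · have h1 : ∀ v, dg G v < i := fun v => by have := hG v; omega
      have h2 : ∀ v, dg H v < i := fun v => by have := hH v; omega
      rw [SB_symm k G, SB_symm k H, SB_large h1, SB_large h2]

end Pool.Agent.H8.NO
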