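import Mathlib
import Pool.Agent.H8.NO.Recon

/-!
Maps that are improper exactly at one or two vertices do not exist near the overfull threshold.
-/

set_option autoImplicit false
set_option linter.unusedSectionVars false

namespace Pool.Agent.H8.NO

open Finset Function
open Pool.Agent.H15.EC (Deck PIso)

variable {V : Type} [Fintype V] [DecidableEq V]

/-- The sum of the degrees. -/
noncomputable def Ds (G : SimpleGraph V) : ℕ := ∑ w, dg G w

theorem Ds_del (G : SimpleGraph V) (u : V) : Ds (del G u) + 2 * dg G u = Ds G := by
  classical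
  have h0 : dg (del G u) u = 0 := by
    rw [dg, Finset.card_eq_zero]
    ext x
    simp [mem_nbr, del_adj]
  have h1 : ∀ w, dg (del G u) w + (if G.Adj u w then 1 else 0) + (if w = u then dg G u else 0) =
      dg G w := by
    intro w
    by_cases hw : w = u
    · subst hw
      rw [if_neg (fun h => h.ne rfl), if_pos rfl, h0]
      omega
    · by_cases h : G.Adj u w
      · rw [if_pos h, if_neg hw]
        have := dg_del_of_adj h
        omega
      · rw [if_neg h, if_neg hw, dg_del_of_not_adj hw h]
        rfl
  have h2 : ∑ w, (if G.Adj u w then 1 else 0) = dg G u := by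
    rw [← Finset.card_filter]
    rfl
  have h3 : ∑ w, (if w = u then dg G u else 0) = dg G u := by
    simp
  unfold Ds
  rw [← Finset.sum_congr rfl (fun w _ => h1 w), Finset.sum_add_distrib, Finset.sum_add_distrib,
    h2, h3]
  ring

theorem propAt_del {G : SimpleGraph V} {k : ℕ} {c : Sym2 V → Fin k} {u w : V}
    (h : w ≠ u → PropAt G c w) : PropAt (del G u) c w := by
  intro x y hx hy hxy
  exact h hx.2.1 x y hx.1 hy.1 hxy

open Classical in
/-- The vertices covered by the colour `i`. -/
noncomputable def cov {k : ℕ} (G : SimpleGraph V) (c : Sym2 V → Fin k) (i : Fin k) : Finset V :=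
  univ.filter fun w => ∃ x, G.Adj w x ∧ c s(w, x) = i

theorem cov_even {k : ℕ} {G : SimpleGraph V} {c : Sym2 V → Fin k} (h : ∀ w, PropAt G c w)
    (i : Fin k) : Even (cov G c i).card := by
  classical
  let C : SimpleGraph V :=
    { Adj := fun x y => G.Adj x y ∧ c s(x, y) = i
      symm := ⟨fun x y h => ⟨h.1.symm, by rw [Sym2.eq_swap]; exact h.2⟩⟩
      loopless := ⟨fun x h => h.1.ne rfl⟩ }
  have h1 := C.even_card_odd_degree_vertices
  have h2 : cov G c i = univ.filter fun w => Odd (C.degree w) := by
    ext w
    simp only [cov, mem_filter, mem_univ, true_and]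
    have hle : C.degree w ≤ 1 := by
      rw [← SimpleGraph.card_neighborFinset_eq_degree, Finset.card_le_one]
      intro x hx y hy
      rw [SimpleGraph.mem_neighborFinset] at hx hy
      exact h w x y hx.1 hy.1 (hx.2.trans hy.2.symm)
    constructor
    · rintro ⟨x, hx, hxi⟩
      have hpos : 0 < C.degree w := (C.degree_pos_iff_exists_adj w).2 ⟨x, hx, hxi⟩
      have : C.degree w = 1 := by omega
      rw [this]; exact odd_one
    · intro ho
      have hpos : 0 < C.degree w := ho.pos
      obtain ⟨x, hx⟩ := (C.degree_pos_iff_exists_adj w).1 hpos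
      exact ⟨x, hx⟩
  rw [h2]
  exact h1

theorem sum_cov {k : ℕ} {G : SimpleGraph V} {c : Sym2 V → Fin k} (h : ∀ w, PropAt G c w) :
    ∑ i, (cov G c i).card = Ds G := by
  classical
  unfold cov Ds
  simp_rw [Finset.card_filter]
  rw [Finset.sum_comm]
  refine Finset.sum_congr rfl fun w _ => ?_
  rw [← Finset.card_filter]
  have : (univ.filter fun i : Fin k => ∃ x, G.Adj w x ∧ c s(w, x) = i) =
      (nbr G w).image fun x => c s(w, x) := by
    ext i
    simp only [mem_filter, mem_univ, true_and, mem_image, mem_nbr]
  rw [this, Finset.card_image_of_injOn]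
  · rfl
  · intro x hx y hy hxy
    exact h w x y ((mem_nbr G w x).1 hx) ((mem_nbr G w y).1 hy) hxy

theorem cov_add {k : ℕ} {G : SimpleGraph V} {c : Sym2 V → Fin k} {i : Fin k} {S : Finset V}
    (hS : ∀ w ∈ S, ∀ x, G.Adj w x → c s(w, x) ≠ i) :
    (cov G c i).card + S.card ≤ Fintype.card V := by
  classical
  rw [← Finset.card_union_of_disjoint]
  · exact Finset.card_le_univ _
  · rw [Finset.disjoint_left]
    intro w hw hwS
    simp only [cov, mem_filter, mem_univ, true_and] at hw
    obtain ⟨x, hx, hi⟩ := hw
    exact hS w hwS x hx hi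

/-- Near the overfull threshold, even order. -/
theorem vanish_one {k : ℕ} {G : SimpleGraph V} {u : V} (hn : Even (Fintype.card V))
    (hc : k * (Fintype.card V - 2) + 2 * dg G u < Ds G + 2) (c : Sym2 V → Fin k)
    (h : ∀ w, w ≠ u → PropAt G c w) : PropAt G c u := by
  classical
  by_contra hu
  simp only [PropAt, not_forall] at hu
  obtain ⟨x, y, hx, hy, hxy, hne⟩ := hu
  have hall : ∀ w, PropAt (del G u) c w := fun w => propAt_del (h w)
  have h1 : ∀ i, (cov (del G u) c i).card + (if i = c s(u, x) then 2 else 0) ≤
      Fintype.card V - 2 := by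
    intro i
    obtain ⟨m, hm⟩ := cov_even hall i
    obtain ⟨t, ht⟩ := hn
    split_ifs with hi
    · have h2 := cov_add (G := del G u) (c := c) (i := i) (S := {u, x, y}) (by
        intro w hw z hz hzi
        simp only [mem_insert, mem_singleton] at hw
        rcases hw with rfl | rfl | rfl
        · exact hz.2.1 rfl
        · have := h w hz.2.1 z u hz.1 hx.symm (by rw [hzi, hi, Sym2.eq_swap])
          exact hz.2.2 this
        · have := h w hz.2.1 z u hz.1 hy.symm (by rw [hzi, hi, hxy, Sym2.eq_swap])
          exact hz.2.2 this)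
      rw [Finset.card_insert_of_notMem (by simp [hx.ne, hy.ne]),
        Finset.card_pair hne] at h2
      omega
    · have h2 := cov_add (G := del G u) (c := c) (i := i) (S := {u}) (by
        intro w hw z hz _
        rw [mem_singleton] at hw
        exact hz.2.1 hw)
      rw [Finset.card_singleton] at h2
      omega
  have h3 := Finset.sum_le_sum (fun i (_ : i ∈ univ) => h1 i)
  rw [Finset.sum_add_distrib, sum_cov hall, Finset.sum_const, Finset.card_univ, Fintype.card_fin,
    smul_eq_mul, Finset.sum_ite_eq' univ (c s(u, x)) (fun _ => 2), if_pos (mem_univ _)] at h3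
  have h4 := Ds_del G u
  omega

/-- Near the overfull threshold, odd order. -/
theorem vanish_two {k : ℕ} {G : SimpleGraph V} {u v : V} (huv : u ≠ v)
    (hn : Odd (Fintype.card V)) (hn3 : 3 ≤ Fintype.card V)
    (hc : k * (Fintype.card V - 3) + 2 * dg G u + 2 * dg G v < Ds G + 4) (c : Sym2 V → Fin k)
    (h : ∀ w, w ≠ u → w ≠ v → PropAt G c w) : PropAt G c u ∨ PropAt G c v := by
  classical
  by_contra hcon
  rw [not_or] at hcon
  obtain ⟨hu, hv⟩ := hcon
  simp only [PropAt, not_forall] at hu hv
  obtain ⟨x, y, hx, hy, hxy, hne⟩ := hu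
  obtain ⟨z, w, hz, hw, hzw, hne'⟩ := hv
  set G' := del (del G u) v with hG'
  have hadj : ∀ a b, G'.Adj a b ↔ G.Adj a b ∧ a ≠ u ∧ b ≠ u ∧ a ≠ v ∧ b ≠ v := by
    intro a b
    simp only [hG', del_adj]
    tauto
  have hall : ∀ w, PropAt G' c w := by
    intro a
    apply propAt_del
    intro hav
    exact propAt_del fun hau => h a hau hav
  -- the end of an edge at u or v of colour i is not covered by the colour i in G'
  have hcovu : ∀ a b i, G.Adj u a → c s(u, a) = i → G'.Adj a b → c s(a, b) ≠ i := by
    intro a b i ha hi hab habi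
    rw [hadj] at hab
    have := h a hab.2.1 hab.2.2.2.1 b u hab.1 ha.symm (by rw [habi, ← hi, Sym2.eq_swap])
    exact hab.2.2.1 this
  have hcovv : ∀ a b i, G.Adj v a → c s(v, a) = i → G'.Adj a b → c s(a, b) ≠ i := by
    intro a b i ha hi hab habi
    rw [hadj] at hab
    have := h a hab.2.1 hab.2.2.2.1 b v hab.1 ha.symm (by rw [habi, ← hi, Sym2.eq_swap])
    exact hab.2.2.2.2 this
  have hcross : ∀ a b, a ≠ u → a ≠ v → G.Adj u a → G.Adj v b → c s(u, a) = c s(v, b) → a ≠ b := by
    rintro a b hau hav ha hb hab rfl
    exact huv (h a hau hav u v ha.symm hb.symm (by rw [Sym2.eq_swap, hab, Sym2.eq_swap]))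
  have hbase : ∀ (i : Fin k) (S : Finset V), (∀ a ∈ S, a ≠ u ∧ a ≠ v) →
      (∀ a ∈ S, ∀ b, G'.Adj a b → c s(a, b) ≠ i) →
      (cov G' c i).card + (S.card + 2) ≤ Fintype.card V := by
    intro i S hS1 hS2
    have h2 := cov_add (G := G') (c := c) (i := i) (S := insert u (insert v S)) (by
      intro a ha b hab
      simp only [mem_insert] at ha
      rcases ha with rfl | rfl | ha
      · exact absurd rfl ((hadj _ _).1 hab).2.1
      · exact absurd rfl ((hadj _ _).1 hab).2.2.2.1
      · exact hS2 a ha b hab)
    rw [Finset.card_insert_of_notMem, Finset.card_insert_of_notMem] at h2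
    · exact h2
    · intro hvS; exact (hS1 v hvS).2 rfl
    · rw [mem_insert, not_or]
      exact ⟨huv, fun huS => (hS1 u huS).1 rfl⟩
  have hDs : Ds G' + 2 * dg (del G u) v + 2 * dg G u = Ds G := by
    have h1 := Ds_del (del G u) v
    have h2 := Ds_del G u
    rw [← hG'] at h1
    omega
  by_cases ha : G.Adj u v
  · have hdv := dg_del_of_adj ha
    -- one colour loses two vertices
    obtain ⟨j, S, hS1, hS2, hScard⟩ : ∃ (j : Fin k) (S : Finset V), (∀ a ∈ S, a ≠ u ∧ a ≠ v) ∧
        (∀ a ∈ S, ∀ b, G'.Adj a b → c s(a, b) ≠ j) ∧ S.card = 2 := by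
      by_cases hc1 : x ≠ v ∧ y ≠ v
      · refine ⟨c s(u, x), {x, y}, ?_, ?_, Finset.card_pair hne⟩
        · intro a haS
          simp only [mem_insert, mem_singleton] at haS
          rcases haS with rfl | rfl
          · exact ⟨hx.ne', hc1.1⟩
          · exact ⟨hy.ne', hc1.2⟩
        · intro a haS b hab
          simp only [mem_insert, mem_singleton] at haS
          rcases haS with rfl | rfl
          · exact hcovu _ b _ hx rfl hab
          · exact hcovu _ b _ hy hxy.symm hab
      by_cases hc2 : z ≠ u ∧ w ≠ u
      · refine ⟨c s(v, z), {z, w}, ?_, ?_, Finset.card_pair hne'⟩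
        · intro a haS
          simp only [mem_insert, mem_singleton] at haS
          rcases haS with rfl | rfl
          · exact ⟨hc2.1, hz.ne'⟩
          · exact ⟨hc2.2, hw.ne'⟩
        · intro a haS b hab
          simp only [mem_insert, mem_singleton] at haS
          rcases haS with rfl | rfl
          · exact hcovv _ b _ hz rfl hab
          · exact hcovv _ b _ hw hzw.symm hab
      -- both use the edge uv
      obtain ⟨y', hy', hy'v, hcy'⟩ : ∃ y', G.Adj u y' ∧ y' ≠ v ∧ c s(u, y') = c s(u, v) := by
        by_cases hxv : x = v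
        · subst hxv
          exact ⟨y, hy, fun hh => hne hh.symm, hxy.symm⟩
        · have hyv : y = v := by
            by_contra hyv
            exact hc1 ⟨hxv, hyv⟩
          subst hyv
          exact ⟨x, hx, hxv, hxy⟩
      obtain ⟨w', hw', hw'u, hcw'⟩ : ∃ w', G.Adj v w' ∧ w' ≠ u ∧ c s(v, w') = c s(u, v) := by
        by_cases hzu : z = u
        · subst hzu
          exact ⟨w, hw, fun hh => hne' hh.symm, by rw [← hzw, Sym2.eq_swap]⟩
        · have hwu : w = u := by
            by_contra hwu
            exact hc2 ⟨hzu, hwu⟩
          subst hwu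
          exact ⟨z, hz, hzu, by rw [hzw, Sym2.eq_swap]⟩
      have hyw : y' ≠ w' := hcross y' w' hy'.ne' hy'v hy' hw' (hcy'.trans hcw'.symm)
      refine ⟨c s(u, v), {y', w'}, ?_, ?_, Finset.card_pair hyw⟩
      · intro a haS
        simp only [mem_insert, mem_singleton] at haS
        rcases haS with rfl | rfl
        · exact ⟨hy'.ne', hy'v⟩
        · exact ⟨hw'u, hw'.ne'⟩
      · intro a haS b hab
        simp only [mem_insert, mem_singleton] at haS
        rcases haS with rfl | rfl
        · exact hcovu _ b _ hy' hcy' hab
        · exact hcovv _ b _ hw' hcw' hab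
    have h1 : ∀ i, (cov G' c i).card + (if i = j then 2 else 0) ≤ Fintype.card V - 3 := by
      intro i
      obtain ⟨m, hm⟩ := cov_even hall i
      obtain ⟨t, ht⟩ := hn
      split_ifs with hi
      · subst hi
        have := hbase i S hS1 hS2
        omega
      · have := hbase i ∅ (by simp) (by simp)
        simp only [Finset.card_empty] at this
        omega
    have h3 := Finset.sum_le_sum (fun i (_ : i ∈ univ) => h1 i)
    rw [Finset.sum_add_distrib, sum_cov hall, Finset.sum_const, Finset.card_univ,
      Fintype.card_fin, smul_eq_mul, Finset.sum_ite_eq' univ j (fun _ => 2),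
      if_pos (mem_univ _)] at h3
    omega
  · have hdv := dg_del_of_not_adj huv.symm ha
    have hxv : x ≠ v := fun hh => ha (hh ▸ hx)
    have hyv : y ≠ v := fun hh => ha (hh ▸ hy)
    have hzu : z ≠ u := fun hh => ha (hh ▸ hz).symm
    have hwu : w ≠ u := fun hh => ha (hh ▸ hw).symm
    have h1 : ∀ i, (cov G' c i).card + ((if i = c s(u, x) then 2 else 0) +
        (if i = c s(v, z) then 2 else 0)) ≤ Fintype.card V - 3 := by
      intro i
      obtain ⟨m, hm⟩ := cov_even hall i
      obtain ⟨t, ht⟩ := hn
      by_cases hi1 : i = c s(u, x)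
      · by_cases hi2 : i = c s(v, z)
        · rw [if_pos hi1, if_pos hi2]
          have hcard : ({x, y, z, w} : Finset V).card = 4 := by
            rw [Finset.card_insert_of_notMem, Finset.card_insert_of_notMem, Finset.card_pair hne']
            · simp only [mem_insert, mem_singleton, not_or]
              exact ⟨hcross y z hy.ne' hyv hy hz (by rw [← hxy, ← hi1, hi2]),
                hcross y w hy.ne' hyv hy hw (by rw [← hxy, ← hi1, hi2, hzw])⟩
            · simp only [mem_insert, mem_singleton, not_or]
              exact ⟨hne, hcross x z hx.ne' hxv hx hz (by rw [← hi1, hi2]),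
                hcross x w hx.ne' hxv hx hw (by rw [← hi1, hi2, hzw])⟩
          have := hbase i {x, y, z, w} (by
            intro a haS
            simp only [mem_insert, mem_singleton] at haS
            rcases haS with rfl | rfl | rfl | rfl
            · exact ⟨hx.ne', hxv⟩
            · exact ⟨hy.ne', hyv⟩
            · exact ⟨hzu, hz.ne'⟩
            · exact ⟨hwu, hw.ne'⟩) (by
            intro a haS b hab
            simp only [mem_insert, mem_singleton] at haS
            rcases haS with rfl | rfl | rfl | rfl
            · exact hcovu _ b _ hx hi1.symm hab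
            · exact hcovu _ b _ hy (hxy.symm.trans hi1.symm) hab
            · exact hcovv _ b _ hz hi2.symm hab
            · exact hcovv _ b _ hw (hzw.symm.trans hi2.symm) hab)
          omega
        · rw [if_pos hi1, if_neg hi2]
          have := hbase i {x, y} (by
            intro a haS
            simp only [mem_insert, mem_singleton] at haS
            rcases haS with rfl | rfl
            · exact ⟨hx.ne', hxv⟩
            · exact ⟨hy.ne', hyv⟩) (by
            intro a haS b hab
            simp only [mem_insert, mem_singleton] at haS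
            rcases haS with rfl | rfl
            · exact hcovu _ b _ hx hi1.symm hab
            · exact hcovu _ b _ hy (hxy.symm.trans hi1.symm) hab)
          rw [Finset.card_pair hne] at this
          omega
      · by_cases hi2 : i = c s(v, z)
        · rw [if_neg hi1, if_pos hi2]
          have := hbase i {z, w} (by
            intro a haS
            simp only [mem_insert, mem_singleton] at haS
            rcases haS with rfl | rfl
            · exact ⟨hzu, hz.ne'⟩
            · exact ⟨hwu, hw.ne'⟩) (by
            intro a haS b hab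
            simp only [mem_insert, mem_singleton] at haS
            rcases haS with rfl | rfl
            · exact hcovv _ b _ hz hi2.symm hab
            · exact hcovv _ b _ hw (hzw.symm.trans hi2.symm) hab)
          rw [Finset.card_pair hne'] at this
          omega
        · rw [if_neg hi1, if_neg hi2]
          have := hbase i ∅ (by simp) (by simp)
          simp only [Finset.card_empty] at this
          omega
    have h3 := Finset.sum_le_sum (fun i (_ : i ∈ univ) => h1 i)
    rw [Finset.sum_add_distrib, Finset.sum_add_distrib, sum_cov hall, Finset.sum_const,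
      Finset.card_univ, Fintype.card_fin, smul_eq_mul,
      Finset.sum_ite_eq' univ (c s(u, x)) (fun _ => 2),
      Finset.sum_ite_eq' univ (c s(v, z)) (fun _ => 2), if_pos (mem_univ _),
      if_pos (mem_univ _)] at h3
    omega

theorem Z_one {k : ℕ} {G : SimpleGraph V} {u : V}
    (h : ∀ c : Sym2 V → Fin k, (∀ w, w ≠ u → PropAt G c w) → PropAt G c u) :
    Z k G {u} = Z k G ∅ := by
  classical
  unfold Z
  congr 1
  ext c
  simp only [mem_filter, mem_univ, true_and, mem_singleton, notMem_empty, not_false_eq_true,
    forall_const]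
  constructor
  · intro hc w
    by_cases hw : w = u
    · subst hw; exact h c hc
    · exact hc w hw
  · intro hc w _
    exact hc w

theorem Z_two {k : ℕ} {G : SimpleGraph V} {u v : V} (huv : u ≠ v)
    (h : ∀ c : Sym2 V → Fin k, (∀ w, w ≠ u → w ≠ v → PropAt G c w) →
      PropAt G c u ∨ PropAt G c v) :
    Z k G {u, v} + Z k G ∅ = Z k G {u} + Z k G {v} := by
  classical
  have h1 : (univ.filter fun c : Sym2 V → Fin k => ∀ w, w ∉ ({u, v} : Finset V) → PropAt G c w) =
      (univ.filter fun c : Sym2 V → Fin k => ∀ w, w ∉ ({u} : Finset V) → PropAt G c w) ∪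
      (univ.filter fun c : Sym2 V → Fin k => ∀ w, w ∉ ({v} : Finset V) → PropAt G c w) := by
    ext c
    simp only [mem_filter, mem_univ, true_and, mem_union, mem_singleton, mem_insert, not_or,
      and_imp]
    constructor
    · intro hc
      rcases h c hc with hu | hv
      · right
        intro w hw
        by_cases hwu : w = u
        · subst hwu; exact hu
        · exact hc w hwu hw
      · left
        intro w hw
        by_cases hwv : w = v
        · subst hwv; exact hv
        · exact hc w hw hwv
    · rintro (hc | hc) w hw1 hw2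
      · exact hc w hw1
      · exact hc w hw2
  have h2 : (univ.filter fun c : Sym2 V → Fin k => ∀ w, w ∉ (∅ : Finset V) → PropAt G c w) =
      (univ.filter fun c : Sym2 V → Fin k => ∀ w, w ∉ ({u} : Finset V) → PropAt G c w) ∩
      (univ.filter fun c : Sym2 V → Fin k => ∀ w, w ∉ ({v} : Finset V) → PropAt G c w) := by
    ext c
    simp only [mem_filter, mem_univ, true_and, mem_inter, mem_singleton, notMem_empty,
      not_false_eq_true, forall_const]
    constructor
    · intro hc
      exact ⟨fun w _ => hc w, fun w _ => hc w⟩
    · rintro ⟨h1, h2⟩ w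
      by_cases hw : w = u
      · exact h2 w (hw ▸ huv)
      · exact h1 w hw
  unfold Z
  rw [h1, h2]
  exact Finset.card_union_add_card_inter _ _

end Pool.Agent.H8.NO
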