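import Mathlib
import Pool.Agent.H8.NO.Vanish

/-!
The number of proper colourings is determined near the overfull threshold.
-/

set_option autoImplicit false
set_option linter.unusedSectionVars false

namespace Pool.Agent.H8.NO

open Finset Function
open Pool.Agent.H15.EC (Deck PIso)

variable {V : Type} [Fintype V] [DecidableEq V]

open Classical in
theorem pair_sum {k : ℕ} {G : SimpleGraph V} {R : V → V → Prop} {i j : ℕ} {N : V → ℕ → ℕ}
    (hN : ∀ u j, N u j = (univ.filter fun v => R u v ∧ dg G v = j).card)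
    (hR : ∀ u v, R u v → R v u)
    (h2 : ∀ u v, R u v → dg G u = i → dg G v = j →
      Z k G {u, v} + Z k G ∅ = Z k G {u} + Z k G {v}) :
    (∑ u, ∑ v, if R u v ∧ dg G u = i ∧ dg G v = j then Z k G {u, v} else 0) +
      (∑ u, if dg G u = i then N u j else 0) * Z k G ∅ =
    (∑ u, if dg G u = i then Z k G {u} * N u j else 0) +
      ∑ v, if dg G v = j then Z k G {v} * N v i else 0 := by
  have h3 : (∑ v, if dg G v = j then Z k G {v} * N v i else 0) =
      ∑ u, ∑ v, if R u v ∧ dg G u = i ∧ dg G v = j then Z k G {v} else 0 := by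
    rw [Finset.sum_comm]
    refine Finset.sum_congr rfl fun v _ => ?_
    by_cases hj : dg G v = j
    · rw [if_pos hj, hN, Finset.card_filter, Finset.mul_sum]
      refine Finset.sum_congr rfl fun u _ => ?_
      by_cases hc : R v u ∧ dg G u = i
      · rw [if_pos hc, if_pos ⟨hR _ _ hc.1, hc.2, hj⟩, mul_one]
      · rw [if_neg hc, if_neg (fun h => hc ⟨hR _ _ h.1, h.2.1⟩), mul_zero]
    · rw [if_neg hj]
      symm
      exact Finset.sum_eq_zero fun u _ => if_neg fun h => hj h.2.2
  have h4 : (∑ u, if dg G u = i then Z k G {u} * N u j else 0) =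
      ∑ u, ∑ v, if R u v ∧ dg G u = i ∧ dg G v = j then Z k G {u} else 0 := by
    refine Finset.sum_congr rfl fun u _ => ?_
    by_cases hi : dg G u = i
    · rw [if_pos hi, hN, Finset.card_filter, Finset.mul_sum]
      refine Finset.sum_congr rfl fun v _ => ?_
      by_cases hc : R u v ∧ dg G v = j
      · rw [if_pos hc, if_pos ⟨hc.1, hi, hc.2⟩, mul_one]
      · rw [if_neg hc, if_neg (fun h => hc ⟨h.1, h.2.2⟩), mul_zero]
    · rw [if_neg hi]
      symm
      exact Finset.sum_eq_zero fun v _ => if_neg fun h => hi h.2.1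
  have h5 : (∑ u, if dg G u = i then N u j else 0) * Z k G ∅ =
      ∑ u, ∑ v, if R u v ∧ dg G u = i ∧ dg G v = j then Z k G ∅ else 0 := by
    rw [Finset.sum_mul]
    refine Finset.sum_congr rfl fun u _ => ?_
    by_cases hi : dg G u = i
    · rw [if_pos hi, hN, Finset.card_filter, Finset.sum_mul]
      refine Finset.sum_congr rfl fun v _ => ?_
      by_cases hc : R u v ∧ dg G v = j
      · rw [if_pos hc, if_pos ⟨hc.1, hi, hc.2⟩, one_mul]
      · rw [if_neg hc, if_neg (fun h => hc ⟨h.1, h.2.2⟩), zero_mul]
    · rw [if_neg hi, zero_mul]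
      symm
      exact Finset.sum_eq_zero fun v _ => if_neg fun h => hi h.2.1
  rw [h3, h4, h5]
  simp only [← Finset.sum_add_distrib]
  refine Finset.sum_congr rfl fun u _ => Finset.sum_congr rfl fun v _ => ?_
  by_cases hc : R u v ∧ dg G u = i ∧ dg G v = j
  · simp only [if_pos hc]
    exact h2 u v hc.1 hc.2.1 hc.2.2
  · simp only [if_neg hc]

/-- Transfer of a sum over the vertices of one degree. -/
theorem sum_rec {G H : SimpleGraph V} {σ : V ≃ V} (hd : Deck G H σ)
    (hn : 3 ≤ Fintype.card V) (i : ℕ) (A B : V → ℕ) (h : ∀ u, A u = B (σ u)) :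
    (∑ u, if dg G u = i then A u else 0) = ∑ u, if dg H u = i then B u else 0 := by
  rw [← Equiv.sum_comp σ (fun u => if dg H u = i then B u else 0)]
  refine Finset.sum_congr rfl fun u _ => ?_
  rw [dg_rec hd hn u, h]

theorem nb_eq_filter (G : SimpleGraph V) (u : V) (j : ℕ) [DecidablePred fun v => G.Adj u v ∧
    dg G v = j] : nb G u j = (univ.filter fun v => G.Adj u v ∧ dg G v = j).card := by
  unfold nb
  congr 1
  ext v
  simp only [mem_filter, mem_univ, true_and, mem_nbr]

/-- Distinct and not adjacent. -/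
def NA (G : SimpleGraph V) (u v : V) : Prop := u ≠ v ∧ ¬ G.Adj u v

theorem na_eq_filter (G : SimpleGraph V) (u : V) (j : ℕ) [DecidablePred fun v => NA G u v ∧
    dg G v = j] : na G u j = (univ.filter fun v => NA G u v ∧ dg G v = j).card := by
  classical
  unfold na
  congr 1
  ext v
  rw [mem_filter, mem_filter]
  constructor
  · rintro ⟨h0, h1, h2, h3⟩; exact ⟨h0, ⟨h1.symm, h2⟩, h3⟩
  · rintro ⟨h0, ⟨h1, h2⟩, h3⟩; exact ⟨h0, h1.symm, h2, h3⟩

theorem Z_zero_rec {G H : SimpleGraph V} {σ : V ≃ V} (hd : Deck G H σ)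
    (hn : 3 ≤ Fintype.card V) {k : ℕ} (hk : 0 < k) (hG : ∀ v, dg G v ≤ k) {u v : V} (huv : u ≠ v)
    (hZG : ∀ a b, a ≠ b → dg G a = dg G u → dg G b = dg G v →
      Z k G {a, b} + Z k G ∅ = Z k G {a} + Z k G {b})
    (hZH : ∀ a b, a ≠ b → dg H a = dg G u → dg H b = dg G v →
      Z k H {a, b} + Z k H ∅ = Z k H {a} + Z k H {b}) : Z k G ∅ = Z k H ∅ := by
  classical
  have hS := pairs_rec hd hn hk hG (k + 1) (dg G v) (by omega) (dg G u)
  have hnn := nb_na_rec hd hn
  have hZ1 := Z1_rec hd hn hk
  by_cases ha : G.Adj u v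
  · have h1 := pair_sum (k := k) (G := G) (R := G.Adj) (i := dg G u) (j := dg G v) (N := nb G)
      (fun u j => nb_eq_filter G u j) (fun _ _ h => h.symm)
      (fun a b hab hi hj => hZG a b hab.ne hi hj)
    have h2 := pair_sum (k := k) (G := H) (R := H.Adj) (i := dg G u) (j := dg G v) (N := nb H)
      (fun u j => nb_eq_filter H u j) (fun _ _ h => h.symm)
      (fun a b hab hi hj => hZH a b hab.ne hi hj)
    have e1 : (∑ a, ∑ b, if G.Adj a b ∧ dg G a = dg G u ∧ dg G b = dg G v then
        Z k G {a, b} else 0) = SB k G (dg G u) (dg G v) := by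
      unfold SB
      refine Finset.sum_congr rfl fun a _ => Finset.sum_congr rfl fun b _ => ?_
      exact if_congr Iff.rfl rfl rfl
    have e2 : (∑ a, ∑ b, if H.Adj a b ∧ dg H a = dg G u ∧ dg H b = dg G v then
        Z k H {a, b} else 0) = SB k H (dg G u) (dg G v) := by
      unfold SB
      refine Finset.sum_congr rfl fun a _ => Finset.sum_congr rfl fun b _ => ?_
      exact if_congr Iff.rfl rfl rfl
    rw [e1, sum_rec hd hn (dg G u) (fun a => nb G a (dg G v)) (fun a => nb H a (dg G v))
      (fun a => (hnn a _).1),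
      sum_rec hd hn (dg G u) (fun a => Z k G {a} * nb G a (dg G v))
      (fun a => Z k H {a} * nb H a (dg G v)) (fun a => by rw [(hnn a _).1, hZ1]),
      sum_rec hd hn (dg G v) (fun a => Z k G {a} * nb G a (dg G u))
      (fun a => Z k H {a} * nb H a (dg G u)) (fun a => by rw [(hnn a _).1, hZ1]), hS.2, ← h2, e2]
      at h1
    have hpos : 0 < ∑ a, if dg H a = dg G u then nb H a (dg G v) else 0 := by
      apply Finset.sum_pos' (fun _ _ => Nat.zero_le _)
      refine ⟨σ u, mem_univ _, ?_⟩
      rw [if_pos (dg_rec hd hn u).symm, ← (hnn u _).1]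
      unfold nb
      rw [Finset.card_pos]
      exact ⟨v, mem_filter.2 ⟨(mem_nbr G u v).2 ha, rfl⟩⟩
    exact Nat.eq_of_mul_eq_mul_left hpos (Nat.add_left_cancel h1)
  · have h1 := pair_sum (k := k) (G := G) (R := NA G) (i := dg G u)
      (j := dg G v) (N := na G)
      (fun u j => na_eq_filter G u j) (fun _ _ h => ⟨h.1.symm, fun h' => h.2 h'.symm⟩)
      (fun a b hab hi hj => hZG a b hab.1 hi hj)
    have h2 := pair_sum (k := k) (G := H) (R := NA H) (i := dg G u)
      (j := dg G v) (N := na H)
      (fun u j => na_eq_filter H u j) (fun _ _ h => ⟨h.1.symm, fun h' => h.2 h'.symm⟩)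
      (fun a b hab hi hj => hZH a b hab.1 hi hj)
    have e1 : (∑ a, ∑ b, if NA G a b ∧ dg G a = dg G u ∧ dg G b = dg G v then
        Z k G {a, b} else 0) = SA k G (dg G u) (dg G v) := by
      unfold SA
      refine Finset.sum_congr rfl fun a _ => Finset.sum_congr rfl fun b _ => ?_
      exact if_congr (and_assoc) rfl rfl
    have e2 : (∑ a, ∑ b, if NA H a b ∧ dg H a = dg G u ∧ dg H b = dg G v then
        Z k H {a, b} else 0) = SA k H (dg G u) (dg G v) := by
      unfold SA
      refine Finset.sum_congr rfl fun a _ => Finset.sum_congr rfl fun b _ => ?_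
      exact if_congr (and_assoc) rfl rfl
    rw [e1, sum_rec hd hn (dg G u) (fun a => na G a (dg G v)) (fun a => na H a (dg G v))
      (fun a => (hnn a _).2),
      sum_rec hd hn (dg G u) (fun a => Z k G {a} * na G a (dg G v))
      (fun a => Z k H {a} * na H a (dg G v)) (fun a => by rw [(hnn a _).2, hZ1]),
      sum_rec hd hn (dg G v) (fun a => Z k G {a} * na G a (dg G u))
      (fun a => Z k H {a} * na H a (dg G u)) (fun a => by rw [(hnn a _).2, hZ1]), hS.1, ← h2, e2]
      at h1
    have hpos : 0 < ∑ a, if dg H a = dg G u then na H a (dg G v) else 0 := by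
      apply Finset.sum_pos' (fun _ _ => Nat.zero_le _)
      refine ⟨σ u, mem_univ _, ?_⟩
      rw [if_pos (dg_rec hd hn u).symm, ← (hnn u _).2]
      unfold na
      rw [Finset.card_pos]
      exact ⟨v, mem_filter.2 ⟨mem_univ _, huv.symm, ha, rfl⟩⟩
    exact Nat.eq_of_mul_eq_mul_left hpos (Nat.add_left_cancel h1)

theorem Ds_rec {G H : SimpleGraph V} {σ : V ≃ V} (hd : Deck G H σ)
    (hn : 3 ≤ Fintype.card V) : Ds G = Ds H := by
  unfold Ds
  rw [← Equiv.sum_comp σ (dg H)]
  exact Finset.sum_congr rfl fun u _ => dg_rec hd hn u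

theorem Ds_even (G : SimpleGraph V) : Even (Ds G) := by
  classical
  have h := G.sum_degrees_eq_twice_card_edges
  have h2 : Ds G = ∑ v, G.degree v := by
    unfold Ds
    refine Finset.sum_congr rfl fun v _ => ?_
    unfold dg nbr
    rw [← SimpleGraph.card_neighborFinset_eq_degree]
    congr 1
    ext w
    simp
  rw [h2, h]
  exact even_two_mul _

/-- Even order. -/
theorem even_case {G H : SimpleGraph V} {σ : V ≃ V} (hd : Deck G H σ)
    (hn : 3 ≤ Fintype.card V) {k : ℕ} (hk : 0 < k) (he : Even (Fintype.card V)) {u : V}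
    (hc : k * (Fintype.card V - 2) + 2 * dg G u < Ds G + 2) : Z k G ∅ = Z k H ∅ := by
  have h1 := Z_one (fun c h => vanish_one he hc c h)
  have h2 := Z_one (k := k) (G := H) (u := σ u) (fun c h => vanish_one he
    (by rw [← dg_rec hd hn, ← Ds_rec hd hn]; exact hc) c h)
  rw [← h1, ← h2]
  exact Z1_rec hd hn hk u

/-- Odd order. -/
theorem odd_case {G H : SimpleGraph V} {σ : V ≃ V} (hd : Deck G H σ)
    (hn : 3 ≤ Fintype.card V) {k : ℕ} (hk : 0 < k) (hG : ∀ v, dg G v ≤ k)
    (ho : Odd (Fintype.card V)) {u v : V} (huv : u ≠ v)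
    (hc : k * (Fintype.card V - 3) + 2 * dg G u + 2 * dg G v < Ds G + 4) :
    Z k G ∅ = Z k H ∅ := by
  apply Z_zero_rec hd hn hk hG huv
  · intro a b hab ha hb
    exact Z_two hab (fun c h => vanish_two hab ho hn (by rw [ha, hb]; exact hc) c h)
  · intro a b hab ha hb
    exact Z_two hab (fun c h => vanish_two hab ho hn
      (by rw [ha, hb, ← Ds_rec hd hn]; exact hc) c h)

theorem Z_overfull {k : ℕ} {G : SimpleGraph V} (ho : Odd (Fintype.card V))
    (hD : k * (Fintype.card V - 1) < Ds G) : Z k G ∅ = 0 := by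
  classical
  unfold Z
  rw [Finset.card_eq_zero, Finset.filter_eq_empty_iff]
  intro c _ hc
  have hall : ∀ w, PropAt G c w := fun w => hc w (notMem_empty w)
  have h1 : ∀ i, (cov G c i).card ≤ Fintype.card V - 1 := by
    intro i
    obtain ⟨m, hm⟩ := cov_even hall i
    obtain ⟨t, ht⟩ := ho
    have := Finset.card_le_univ (cov G c i)
    omega
  have h2 := Finset.sum_le_sum (fun i (_ : i ∈ univ) => h1 i)
  rw [sum_cov hall, Finset.sum_const, Finset.card_univ, Fintype.card_fin, smul_eq_mul] at h2
  omega

/-- If no neighbour and non-neighbour of `x` have degrees `j + 1` and `j`, then the graph is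
reconstructible. -/
theorem iso_of_gap {G H : SimpleGraph V} {σ : V ≃ V} (hd : Deck G H σ)
    (hn : 3 ≤ Fintype.card V) {x : V}
    (h : ∀ w w', w ≠ x → w' ≠ x → dg G w ≠ dg G w' + 1) :
    ∃ f : V ≃ V, ∀ a b, G.Adj a b ↔ H.Adj (f a) (f b) := by
  obtain ⟨f, hfx, hf⟩ := hd x
  have hiso := del_iso hf
  rw [hfx] at hiso
  have hdg := dg_iso f hiso
  have key : ∀ w, w ≠ x → (G.Adj x w ↔ H.Adj (σ x) (f w)) := by
    intro w hw
    have hfw : f w ≠ σ x := fun hh => hw (f.injective (hh.trans hfx.symm))
    have hw' : σ.symm (f w) ≠ x := by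
      intro hh
      apply hfw
      rw [← hh, σ.apply_symm_apply]
    have h1 := dg_rec hd hn (σ.symm (f w))
    rw [σ.apply_symm_apply] at h1
    have h2 := hdg w
    have h3 := h w (σ.symm (f w)) hw hw'
    have h4 := h (σ.symm (f w)) w hw' hw
    by_cases ha : G.Adj x w
    · by_cases hb : H.Adj (σ x) (f w)
      · exact iff_of_true ha hb
      · exfalso
        have h5 := dg_del_of_adj ha
        have h6 := dg_del_of_not_adj hfw hb
        omega
    · by_cases hb : H.Adj (σ x) (f w)
      · exfalso
        have h5 := dg_del_of_not_adj hw ha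
        have h6 := dg_del_of_adj hb
        omega
      · exact iff_of_false ha hb
  refine ⟨f, fun a b => ?_⟩
  by_cases ha : a = x
  · subst ha
    by_cases hb : b = a
    · subst hb
      exact iff_of_false (fun h => h.ne rfl) (fun h => h.ne rfl)
    · rw [hfx]
      exact key b hb
  · by_cases hb : b = x
    · subst hb
      rw [G.adj_comm, H.adj_comm, hfx]
      exact key a ha
    · exact hf a (by simp [ha]) b (by simp [hb])

/-- Three vertices of deficiencies at least two, the others of degree `k`. -/
theorem three_case {G H : SimpleGraph V} {σ : V ≃ V} (hd : Deck G H σ)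
    (hn : 3 ≤ Fintype.card V) {k : ℕ} {x y z : V}
    (hall : ∀ w, w ≠ x → w ≠ y → w ≠ z → dg G w = k) (hy : dg G y + 2 ≤ k)
    (hz : dg G z + 2 ≤ k) (h1 : dg G y ≠ dg G z + 1) (h2 : dg G z ≠ dg G y + 1) :
    Z k G ∅ = Z k H ∅ := by
  obtain ⟨f, hf⟩ := iso_of_gap hd hn (x := x) (by
    intro w w' hw hw'
    by_cases ay : w = y
    · subst ay
      by_cases by' : w' = w
      · subst by'; omega
      · by_cases bz : w' = z
        · subst bz; exact h1
        · rw [hall w' hw' by' bz]; omega
    · by_cases az : w = z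
      · subst az
        by_cases by' : w' = y
        · subst by'; exact h2
        · by_cases bz : w' = w
          · subst bz; omega
          · rw [hall w' hw' by' bz]; omega
      · rw [hall w hw ay az]
        by_cases by' : w' = y
        · subst by'; omega
        · by_cases bz : w' = z
          · subst bz; omega
          · rw [hall w' hw' by' bz]; omega)
  have := Z_iso (k := k) f hf ∅
  rwa [Finset.map_empty] at this

/-- At most three vertices of degree less than `k`. -/
theorem few_case {G H : SimpleGraph V} {σ : V ≃ V} (hd : Deck G H σ)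
    (hn : 3 ≤ Fintype.card V) {k : ℕ} (hk : 0 < k) (hG : ∀ v, dg G v ≤ k)
    (hc : (univ.filter fun v => dg G v < k).card ≤ 3) : Z k G ∅ = Z k H ∅ := by
  classical
  -- three vertices, sorted by the degree
  obtain ⟨x, y, z, hxy, hxz, hyz, hall, h1, h2⟩ : ∃ x y z : V, x ≠ y ∧ x ≠ z ∧ y ≠ z ∧
      (∀ w, w ≠ x → w ≠ y → w ≠ z → dg G w = k) ∧ dg G x ≤ dg G y ∧ dg G y ≤ dg G z := by
    obtain ⟨T, hT1, hT2, hT3⟩ := Finset.exists_subsuperset_card_eq
      (Finset.subset_univ (univ.filter fun v => dg G v < k)) hc (by rwa [Finset.card_univ])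
    have hout : ∀ w, w ∉ T → dg G w = k := by
      intro w hw
      have := hG w
      have h3 : ¬ dg G w < k := fun h => hw (hT1 (mem_filter.2 ⟨mem_univ _, h⟩))
      omega
    obtain ⟨x, hx, hxm⟩ := Finset.exists_min_image T (dg G) (Finset.card_pos.1 (by omega))
    have hc2 : (T.erase x).card = 2 := by rw [Finset.card_erase_of_mem hx, hT3]
    obtain ⟨y, hy, hym⟩ := Finset.exists_min_image (T.erase x) (dg G)
      (Finset.card_pos.1 (by omega))
    have hc3 : ((T.erase x).erase y).card = 1 := by rw [Finset.card_erase_of_mem hy, hc2]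
    obtain ⟨z, hz⟩ := Finset.card_eq_one.1 hc3
    have hz' : z ∈ (T.erase x).erase y := by rw [hz]; exact mem_singleton_self z
    rw [mem_erase] at hy
    have hz1 := mem_erase.1 hz'
    have hz2 := mem_erase.1 hz1.2
    refine ⟨x, y, z, hy.1.symm, hz2.1.symm, hz1.1.symm, ?_, hxm y hy.2, hym z hz1.2⟩
    intro w hwx hwy hwz
    apply hout
    intro hw
    have : w ∈ (T.erase x).erase y := mem_erase.2 ⟨hwy, mem_erase.2 ⟨hwx, hw⟩⟩
    rw [hz, mem_singleton] at this
    exact hwz this
  have hx' := hG x
  have hy' := hG y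
  have hz' := hG z
  -- the degree sum
  have hDs : Ds G + (k - dg G x) + (k - dg G y) + (k - dg G z) = k * Fintype.card V := by
    have e1 : ∀ w, dg G w + ((if w = x then k - dg G x else 0) + ((if w = y then k - dg G y else 0)
        + (if w = z then k - dg G z else 0))) = k := by
      intro w
      by_cases a1 : w = x
      · subst a1
        rw [if_pos rfl, if_neg hxy, if_neg hxz]; omega
      · by_cases a2 : w = y
        · subst a2
          rw [if_neg a1, if_pos rfl, if_neg hyz]; omega
        · by_cases a3 : w = z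
          · subst a3
            rw [if_neg a1, if_neg a2, if_pos rfl]; omega
          · rw [if_neg a1, if_neg a2, if_neg a3, hall w a1 a2 a3, add_zero, add_zero, add_zero]
    have e2 : ∑ w, (dg G w + ((if w = x then k - dg G x else 0) +
        ((if w = y then k - dg G y else 0) + (if w = z then k - dg G z else 0)))) =
        k * Fintype.card V := by
      rw [Finset.sum_congr rfl (fun w _ => e1 w), Finset.sum_const, Finset.card_univ, smul_eq_mul,
        mul_comm]
    rw [Finset.sum_add_distrib, Finset.sum_add_distrib, Finset.sum_add_distrib,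
      Finset.sum_ite_eq', Finset.sum_ite_eq', Finset.sum_ite_eq', if_pos (mem_univ _),
      if_pos (mem_univ _), if_pos (mem_univ _)] at e2
    unfold Ds
    omega
  have hDe : Even (Ds G) := Ds_even G
  by_cases hc2 : k < dg G z + 2
  · -- the smallest deficiency is at most one
    rcases Nat.even_or_odd (Fintype.card V) with he | ho
    · have hmul : k * Fintype.card V = k * (Fintype.card V - 2) + 2 * k := by
        obtain ⟨m, hm⟩ : ∃ m, Fintype.card V = m + 2 := ⟨Fintype.card V - 2, by omega⟩
        rw [hm, Nat.add_sub_cancel]; ring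
      apply even_case hd hn hk he (u := x)
      have hDk : Even (k * Fintype.card V) := he.mul_left k
      obtain ⟨p, hp⟩ := hDe
      obtain ⟨q, hq⟩ := hDk
      omega
    · by_cases hov : k * (Fintype.card V - 1) < Ds G
      · rw [Z_overfull ho hov, Z_overfull ho (by rw [← Ds_rec hd hn]; exact hov)]
      · have hmul : k * Fintype.card V = k * (Fintype.card V - 3) + 3 * k := by
          obtain ⟨m, hm⟩ : ∃ m, Fintype.card V = m + 3 := ⟨Fintype.card V - 3, by omega⟩
          rw [hm, Nat.add_sub_cancel]; ring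
        have hmul' : k * Fintype.card V = k * (Fintype.card V - 1) + k := by
          obtain ⟨m, hm⟩ : ∃ m, Fintype.card V = m + 1 := ⟨Fintype.card V - 1, by omega⟩
          rw [hm, Nat.add_sub_cancel]; ring
        apply odd_case hd hn hk hG ho hxy
        omega
  · -- all deficiencies at least two
    by_cases g1 : dg G z = dg G y + 1
    · by_cases g2 : dg G y = dg G x + 1
      · -- use y
        exact three_case hd hn (x := y) (y := x) (z := z) (fun w a b c => hall w b a c) (by omega)
          (by omega) (by omega) (by omega)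
      · -- use z
        exact three_case hd hn (x := z) (y := x) (z := y) (fun w a b c => hall w b c a) (by omega)
          (by omega) (by omega) (by omega)
    · -- use x
      exact three_case hd hn (x := x) (y := y) (z := z) hall (by omega)
        (by omega) (by omega) (by omega)

end Pool.Agent.H8.NO
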