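import Mathlib
import Pool.Agent.H8.NO.Main
import Pool.Agent.H28.VAL

/-!
Graphs with few neighbours of maximum degree, by the adjacency lemma of Vizing.
-/

set_option autoImplicit false
set_option linter.unusedSectionVars false

namespace Pool.Agent.H8.NO

open Finset Function
open Pool.Agent.H15.EC (Deck PIso)
open Pool.Agent.H28 (ECol IsEC)

variable {V : Type} [Fintype V] [DecidableEq V]

theorem ncard_nbr (G : SimpleGraph V) (v : V) : (G.neighborSet v).ncard = dg G v := by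
  unfold dg
  rw [← Set.ncard_coe_finset]
  congr 1
  ext w
  rw [Finset.mem_coe, mem_nbr]
  rfl

theorem ecol_iso {G H : SimpleGraph V} {k : ℕ} (f : V ≃ V)
    (hf : ∀ x y, G.Adj x y ↔ H.Adj (f x) (f y)) (h : ECol G k) : ECol H k := by
  obtain ⟨c, h1, h2⟩ := h
  refine ⟨fun e => c (e.map f.symm), ?_, ?_⟩
  · intro u v huv
    exact h1 _ _ ((hf _ _).2 (by simpa using huv))
  · intro u v w huv huw hvw
    exact h2 _ _ _ ((hf _ _).2 (by simpa using huv)) ((hf _ _).2 (by simpa using huw))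
      (fun hh => hvw (f.symm.injective hh))

theorem ecol_mono {G H : SimpleGraph V} {k : ℕ} (hle : H ≤ G) (h : ECol G k) : ECol H k := by
  obtain ⟨c, h1, h2⟩ := h
  exact ⟨c, fun u v huv => h1 u v (hle huv), fun u v w huv huw => h2 u v w (hle huv) (hle huw)⟩

theorem deck_symm {G H : SimpleGraph V} {σ : V ≃ V} (hd : Deck G H σ) : Deck H G σ.symm := by
  intro v
  obtain ⟨f, hf1, hf2⟩ := hd (σ.symm v)
  rw [σ.apply_symm_apply] at hf1
  refine ⟨f.symm, f.symm_apply_eq.2 hf1.symm, ?_⟩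
  intro x hx y hy
  have hx' : f.symm x ∈ univ.erase (σ.symm v) := by
    rw [mem_erase] at hx ⊢
    exact ⟨fun hh => hx.1 (by rw [← f.apply_symm_apply x, hh, hf1]), mem_univ _⟩
  have hy' : f.symm y ∈ univ.erase (σ.symm v) := by
    rw [mem_erase] at hy ⊢
    exact ⟨fun hh => hy.1 (by rw [← f.apply_symm_apply y, hh, hf1]), mem_univ _⟩
  have := hf2 _ hx' _ hy'
  rw [f.apply_symm_apply, f.apply_symm_apply] at this
  exact this.symm

/-- If `G` is of class one and `H` is not, then `H` has a spanning critical subgraph. -/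
theorem spanning_critical {G H : SimpleGraph V} {σ : V ≃ V} (hd : Deck G H σ) {k : ℕ}
    (hcG : ECol G k) (hcH : ¬ ECol H k) :
    ∃ K, K ≤ H ∧ ¬ ECol K k ∧ (∀ x y, K.Adj x y → ECol (Pool.Agent.H28.del K x y) k) ∧
      ∀ v, ∃ x, K.Adj v x := by
  obtain ⟨K, hKH, hK, hcrit⟩ := Pool.Agent.H28.exists_critical hcH
  refine ⟨K, hKH, hK, hcrit, fun v => ?_⟩
  by_contra hcon
  push Not at hcon
  apply hK
  have hle : K ≤ del H v := by
    intro x y hxy
    exact ⟨hKH hxy, fun hh => hcon y (hh ▸ hxy), fun hh => hcon x (hh ▸ hxy).symm⟩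
  apply ecol_mono hle
  obtain ⟨f, hf1, hf2⟩ := hd (σ.symm v)
  rw [σ.apply_symm_apply] at hf1
  have hiso := del_iso hf2
  rw [hf1] at hiso
  apply ecol_iso f hiso
  exact ecol_mono (fun x y hxy => hxy.1) hcG

theorem dg_mono {K H : SimpleGraph V} (h : K ≤ H) (v : V) : dg K v ≤ dg H v := by
  apply Finset.card_le_card
  intro w hw
  rw [mem_nbr] at hw ⊢
  exact h hw

/-- The two rich neighbours. -/
theorem crit_nb {K H : SimpleGraph V} {k : ℕ} (hKH : K ≤ H) (hH : ∀ v, dg H v ≤ k)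
    (hK : ¬ ECol K k) (hcrit : ∀ x y, K.Adj x y → ECol (Pool.Agent.H28.del K x y) k)
    (hsp : ∀ v, ∃ x, K.Adj v x) (v : V) :
    ∃ z z', z ≠ z' ∧ K.Adj v z ∧ K.Adj v z' ∧ dg K z = k ∧ dg K z' = k := by
  have hdeg : ∀ v, (K.neighborSet v).ncard ≤ k := fun v => by
    rw [ncard_nbr]; exact (dg_mono hKH v).trans (hH v)
  have step : ∀ x, K.Adj v x → ∃ z, z ≠ x ∧ K.Adj v z ∧ dg K z = k := by
    intro x hx
    have h1 := Pool.Agent.H28.val hdeg hx hK (hcrit v x hx)
    have h2 := hdeg x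
    have h3 : 0 < {z | K.Adj v z ∧ z ≠ x ∧ (K.neighborSet z).ncard = k}.ncard := by omega
    rw [Set.ncard_pos] at h3
    obtain ⟨z, hz1, hz2, hz3⟩ := h3
    rw [ncard_nbr] at hz3
    exact ⟨z, hz2, hz1, hz3⟩
  obtain ⟨x, hx⟩ := hsp v
  obtain ⟨z, -, hz1, hz2⟩ := step x hx
  obtain ⟨z', hz'0, hz'1, hz'2⟩ := step z hz1
  exact ⟨z, z', hz'0.symm, hz1, hz'1, hz2, hz'2⟩

theorem crit_rich {K H : SimpleGraph V} {k : ℕ} (hKH : K ≤ H) (hH : ∀ v, dg H v ≤ k)
    (hK : ¬ ECol K k) (hcrit : ∀ x y, K.Adj x y → ECol (Pool.Agent.H28.del K x y) k)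
    {v z : V} (hvz : K.Adj v z) : k + 1 ≤ nb H z k + dg H v := by
  have hdeg : ∀ v, (K.neighborSet v).ncard ≤ k := fun v => by
    rw [ncard_nbr]; exact (dg_mono hKH v).trans (hH v)
  have h1 := Pool.Agent.H28.val hdeg hvz.symm hK (hcrit z v hvz.symm)
  rw [ncard_nbr] at h1
  have h2 := dg_mono hKH v
  have h3 : {y | K.Adj z y ∧ y ≠ v ∧ (K.neighborSet y).ncard = k}.ncard ≤ nb H z k := by
    unfold nb
    rw [← Set.ncard_coe_finset]
    apply Set.ncard_le_ncard _ (Set.toFinite _)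
    rintro y ⟨hy1, -, hy2⟩
    rw [ncard_nbr] at hy2
    rw [Finset.mem_coe, mem_filter, mem_nbr]
    have := dg_mono hKH y
    have := hH y
    exact ⟨hKH hy1, by omega⟩
  omega

theorem ecol_of_ecol {G H : SimpleGraph V} {σ : V ≃ V} (hd : Deck G H σ)
    (hn : 3 ≤ Fintype.card V) {k : ℕ} (hG : ∀ v, dg G v ≤ k)
    (hc : (∃ v, nb G v k ≤ 1) ∨
      ∃ v, (univ.filter fun z => dg G z = k ∧ k + 1 ≤ nb G z k + dg G v).card ≤ 1)
    (hcG : ECol G k) : ECol H k := by
  by_contra hcH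
  have hH : ∀ v, dg H v ≤ k := by
    intro v
    have := dg_rec hd hn (σ.symm v)
    rw [σ.apply_symm_apply] at this
    rw [← this]; exact hG _
  obtain ⟨K, hKH, hK, hcrit, hsp⟩ := spanning_critical hd hcG hcH
  have hfull : ∀ z, dg K z = k → dg H z = k := by
    intro z hz
    have := dg_mono hKH z
    have := hH z
    omega
  rcases hc with ⟨v, hv⟩ | ⟨v, hv⟩
  · obtain ⟨z, z', hzz, h1, h2, h3, h4⟩ := crit_nb hKH hH hK hcrit hsp (σ v)
    rw [(nb_na_rec hd hn v k).1] at hv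
    have : ({z, z'} : Finset V).card ≤ nb H (σ v) k := by
      apply Finset.card_le_card
      intro y hy
      rw [mem_insert, mem_singleton] at hy
      rw [mem_filter, mem_nbr]
      rcases hy with rfl | rfl
      · exact ⟨hKH h1, hfull _ h3⟩
      · exact ⟨hKH h2, hfull _ h4⟩
    rw [Finset.card_pair hzz] at this
    omega
  · obtain ⟨z, z', hzz, h1, h2, h3, h4⟩ := crit_nb hKH hH hK hcrit hsp (σ v)
    have r1 := crit_rich hKH hH hK hcrit h1
    have r2 := crit_rich hKH hH hK hcrit h2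
    have t : ∀ y, dg H y = k → k + 1 ≤ nb H y k + dg H (σ v) →
        σ.symm y ∈ univ.filter fun z => dg G z = k ∧ k + 1 ≤ nb G z k + dg G v := by
      intro y hy1 hy2
      rw [mem_filter]
      have e1 := dg_rec hd hn (σ.symm y)
      have e2 := (nb_na_rec hd hn (σ.symm y) k).1
      have e3 := dg_rec hd hn v
      rw [σ.apply_symm_apply] at e1 e2
      exact ⟨mem_univ _, by omega, by omega⟩
    have : ({σ.symm z, σ.symm z'} : Finset V).card ≤
        (univ.filter fun z => dg G z = k ∧ k + 1 ≤ nb G z k + dg G v).card := by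
      apply Finset.card_le_card
      intro y hy
      rw [mem_insert, mem_singleton] at hy
      rcases hy with rfl | rfl
      · exact t z (hfull _ h3) r1
      · exact t z' (hfull _ h4) r2
    rw [Finset.card_pair (fun hh => hzz (σ.symm.injective hh))] at this
    omega

theorem ecol_iff_of_nb {G H : SimpleGraph V} {σ : V ≃ V} (hd : Deck G H σ)
    (hn : 3 ≤ Fintype.card V) {k : ℕ} (hG : ∀ v, dg G v ≤ k)
    (hc : (∃ v, nb G v k ≤ 1) ∨
      ∃ v, (univ.filter fun z => dg G z = k ∧ k + 1 ≤ nb G z k + dg G v).card ≤ 1) :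
    ECol G k ↔ ECol H k := by
  refine ⟨ecol_of_ecol hd hn hG hc, ecol_of_ecol (deck_symm hd) hn ?_ ?_⟩
  · intro v
    rw [dg_rec (deck_symm hd) hn v]
    exact hG _
  · rcases hc with ⟨v, hv⟩ | ⟨v, hv⟩
    · left
      exact ⟨σ v, by rw [← (nb_na_rec hd hn v k).1]; exact hv⟩
    · right
      refine ⟨σ v, le_trans ?_ hv⟩
      apply Finset.card_le_card_of_injOn σ.symm
      · intro y hy
        simp only [coe_filter, mem_univ, true_and, Set.mem_ofPred_eq] at hy ⊢
        have e1 := dg_rec hd hn (σ.symm y)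
        have e2 := (nb_na_rec hd hn (σ.symm y) k).1
        have e3 := dg_rec hd hn v
        rw [σ.apply_symm_apply] at e1 e2
        exact ⟨by omega, by omega⟩
      · exact σ.symm.injective.injOn

theorem Z_pos_iff {G : SimpleGraph V} {k : ℕ} (hk : 0 < k) : 0 < Z k G ∅ ↔ ECol G k := by
  classical
  unfold Z
  rw [Finset.card_pos]
  constructor
  · rintro ⟨c, hc⟩
    rw [mem_filter] at hc
    refine ⟨fun e => (c e : ℕ), fun u v _ => (c _).2, fun u v w huv huw hvw hh => ?_⟩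
    exact hvw (hc.2 u (notMem_empty u) v w huv huw (Fin.ext hh))
  · rintro ⟨c, h1, h2⟩
    refine ⟨fun e => if h : c e < k then ⟨c e, h⟩ else ⟨0, hk⟩, mem_filter.2 ⟨mem_univ _, ?_⟩⟩
    intro u _ v w huv huw hh
    by_contra hvw
    simp only [dif_pos (h1 u v huv), dif_pos (h1 u w huw), Fin.mk.injEq] at hh
    exact h2 u v w huv huw hvw hh

theorem ecol_iff_of_Z {G H : SimpleGraph V} {k : ℕ} (hk : 0 < k) (h : Z k G ∅ = Z k H ∅) :
    ECol G k ↔ ECol H k := by
  rw [← Z_pos_iff hk, ← Z_pos_iff hk, h]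

theorem colorable_iff_ecol {G : SimpleGraph V} {k : ℕ} : G.lineGraph.Colorable k ↔ ECol G k := by
  classical
  rw [Pool.Agent.H15.EC.colorable_iff]
  constructor
  · rintro ⟨f, hf⟩
    refine ⟨fun e => if h : e ∈ G.edgeSet then (f ⟨e, h⟩ : ℕ) else 0, ?_, ?_⟩
    · intro u v huv
      beta_reduce
      rw [dif_pos (show s(u, v) ∈ G.edgeSet from huv)]
      exact (f _).2
    · intro u v w huv huw hvw hh
      beta_reduce at hh
      rw [dif_pos (show s(u, v) ∈ G.edgeSet from huv),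
        dif_pos (show s(u, w) ∈ G.edgeSet from huw)] at hh
      have := hf u (Sym2.mem_mk_left u v) (Sym2.mem_mk_left u w) (Fin.ext hh)
      exact hvw (Sym2.congr_right.1 (congrArg Subtype.val this))
  · rintro ⟨c, hc1, hc2⟩
    have hlt : ∀ e : G.edgeSet, c e < k := by
      rintro ⟨e, he⟩
      induction e with
      | _ a b => exact hc1 a b he
    refine ⟨fun e => ⟨c e, hlt e⟩, fun v e he e' he' hee => ?_⟩
    by_contra hne
    obtain ⟨a, ha⟩ := he
    obtain ⟨b, hb⟩ := he'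
    have hea : s(v, a) ∈ G.edgeSet := ha ▸ e.2
    have heb : s(v, b) ∈ G.edgeSet := hb ▸ e'.2
    have hab : a ≠ b := by
      rintro rfl
      exact hne (Subtype.ext (ha.trans hb.symm))
    have h2 := hc2 v a b hea heb hab
    rw [← ha, ← hb] at h2
    exact h2 (Fin.mk.inj_iff.1 hee)

end Pool.Agent.H8.NO
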