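import Mathlib
import Pool.Agent.H8.NO.Crit

/-!
Passage to graphs on `Fin n` and to the chromatic number of the line graph.
-/

set_option autoImplicit false
set_option linter.unusedSectionVars false

open Finset

namespace Pool.Agent.H8.NO

open Pool.Agent.H15.EC (Deck PIso)
open Pool.Agent.H28 (ECol)

variable {n : ℕ}

theorem deck_of {G H : SimpleGraph (Fin n)} {σ : Fin n ≃ Fin n}
    (h : ∀ v : Fin n,
      Nonempty (G.induce {w : Fin n | w ≠ v} ≃g H.induce {w : Fin n | w ≠ σ v})) :
    Deck G H σ := by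
  intro v
  obtain ⟨φ⟩ := h v
  let e : {x : Fin n // x ≠ v} ≃ {x : Fin n // x ≠ σ v} := φ.toEquiv
  refine ⟨e.extendSubtype, ?_, ?_⟩
  · have := Equiv.extendSubtype_not_mem e v (by simp)
    simpa using this
  · intro x hx y hy
    have hx' : x ≠ v := (mem_erase.1 hx).1
    have hy' : y ≠ v := (mem_erase.1 hy).1
    rw [Equiv.extendSubtype_apply_of_mem e x hx', Equiv.extendSubtype_apply_of_mem e y hy']
    have h1 := φ.map_rel_iff (a := ⟨x, hx'⟩) (b := ⟨y, hy'⟩)
    exact h1.symm

theorem nbr_eq (G : SimpleGraph (Fin n)) [DecidableRel G.Adj] (v : Fin n) :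
    nbr G v = G.neighborFinset v := by
  ext w
  rw [mem_nbr, SimpleGraph.mem_neighborFinset]

theorem dg_eq (G : SimpleGraph (Fin n)) [DecidableRel G.Adj] (v : Fin n) :
    dg G v = G.degree v := by
  rw [dg, nbr_eq, SimpleGraph.card_neighborFinset_eq_degree]

theorem nb_eq (G : SimpleGraph (Fin n)) [DecidableRel G.Adj] (v : Fin n) (j : ℕ) :
    nb G v j = ((G.neighborFinset v).filter fun w => G.degree w = j).card := by
  rw [nb, nbr_eq]
  simp only [dg_eq]

theorem Ds_eq (G : SimpleGraph (Fin n)) [DecidableRel G.Adj] : Ds G = 2 * G.edgeFinset.card := by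
  rw [← G.sum_degrees_eq_twice_card_edges, Ds]
  simp only [dg_eq]

theorem dg_le_of_ecol {G : SimpleGraph (Fin n)} {m : ℕ} (h : ECol G m) (v : Fin n) :
    dg G v ≤ m := by
  obtain ⟨c, h1, h2⟩ := h
  have := Finset.card_le_card_of_injOn (s := nbr G v) (t := Finset.range m)
    (fun w => c s(v, w)) (fun w hw => by
      rw [Finset.mem_coe, mem_nbr] at hw
      simpa using h1 v w hw) (fun a ha b hb hab => by
      rw [Finset.mem_coe, mem_nbr] at ha hb
      by_contra hne
      exact h2 v a b ha hb hne hab)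
  rwa [Finset.card_range] at this

theorem index_eq {G H : SimpleGraph (Fin n)} {σ : Fin n ≃ Fin n} (hd : Deck G H σ)
    (hn : 3 ≤ Fintype.card (Fin n)) {k : ℕ} (hG : ∀ v, dg G v ≤ k) (hk : ∃ v, dg G v = k)
    (h : ECol G k ↔ ECol H k) :
    G.lineGraph.chromaticNumber = H.lineGraph.chromaticNumber := by
  have hH : ∀ v, dg H v ≤ k := by
    intro v
    have := dg_rec hd hn (σ.symm v)
    rw [σ.apply_symm_apply] at this
    rw [← this]; exact hG _
  have hall : ∀ m, G.lineGraph.Colorable m ↔ H.lineGraph.Colorable m := by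
    intro m
    rw [colorable_iff_ecol, colorable_iff_ecol]
    rcases lt_trichotomy m k with hm | rfl | hm
    · obtain ⟨v, hv⟩ := hk
      refine iff_of_false (fun hh => ?_) (fun hh => ?_)
      · have := dg_le_of_ecol hh v
        omega
      · have := dg_le_of_ecol hh (σ v)
        rw [← dg_rec hd hn v] at this
        omega
    · exact h
    · refine iff_of_true ?_ ?_
      · exact (Pool.Agent.H28.vizing (d := k) fun v => by rw [ncard_nbr]; exact hG v).mono_D hm
      · exact (Pool.Agent.H28.vizing (d := k) fun v => by rw [ncard_nbr]; exact hH v).mono_D hm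
  apply le_antisymm
  · rcases eq_or_ne H.lineGraph.chromaticNumber ⊤ with ht | ht
    · rw [ht]; exact le_top
    · obtain ⟨m, hm⟩ := ENat.ne_top_iff_exists.1 ht
      rw [← hm, SimpleGraph.chromaticNumber_le_iff_colorable, hall,
        ← SimpleGraph.chromaticNumber_le_iff_colorable, hm]
  · rcases eq_or_ne G.lineGraph.chromaticNumber ⊤ with ht | ht
    · rw [ht]; exact le_top
    · obtain ⟨m, hm⟩ := ENat.ne_top_iff_exists.1 ht
      rw [← hm, SimpleGraph.chromaticNumber_le_iff_colorable, ← hall,
        ← SimpleGraph.chromaticNumber_le_iff_colorable, hm]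

/-- The frame of the three results. -/
theorem frame {n : ℕ} (hn : 3 ≤ n) (G H : SimpleGraph (Fin n)) [DecidableRel G.Adj]
    (hdeck : ∃ σ : Fin n ≃ Fin n, ∀ v : Fin n,
      Nonempty (G.induce {w : Fin n | w ≠ v} ≃g H.induce {w : Fin n | w ≠ σ v}))
    (h : ∀ σ : Fin n ≃ Fin n, Deck G H σ → 3 ≤ Fintype.card (Fin n) →
      (∀ v, dg G v ≤ G.maxDegree) → 0 < G.maxDegree →
      (ECol G G.maxDegree ↔ ECol H G.maxDegree)) :
    G.lineGraph.chromaticNumber = H.lineGraph.chromaticNumber := by
  obtain ⟨σ, hσ⟩ := hdeck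
  have hd := deck_of hσ
  have hcard : Fintype.card (Fin n) = n := Fintype.card_fin n
  have hn' : 3 ≤ Fintype.card (Fin n) := by rwa [hcard]
  have : Nonempty (Fin n) := ⟨⟨0, by omega⟩⟩
  have hG : ∀ v, dg G v ≤ G.maxDegree := fun v => by
    rw [dg_eq]; exact G.degree_le_maxDegree v
  have hex : ∃ v, dg G v = G.maxDegree := by
    obtain ⟨v, hv⟩ := G.exists_maximal_degree_vertex
    exact ⟨v, by rw [dg_eq, hv]⟩
  apply index_eq hd hn' hG hex
  rcases Nat.eq_zero_or_pos G.maxDegree with hk | hk
  · rw [hk]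
    have h0 : ∀ v, dg G v = 0 := fun v => by have := hG v; omega
    have key : ∀ F : SimpleGraph (Fin n), (∀ v, dg F v = 0) → ECol F 0 := by
      intro F hF
      have hno : ∀ u v, ¬ F.Adj u v := by
        intro u v huv
        have h1 := hF u
        rw [dg, Finset.card_eq_zero] at h1
        have h2 := (mem_nbr F u v).2 huv
        rw [h1] at h2
        exact absurd h2 (notMem_empty v)
      exact ⟨fun _ => 0, fun u v huv => absurd huv (hno u v),
        fun u v _ huv => absurd huv (hno u v)⟩
    refine iff_of_true (key G h0) (key H fun v => ?_)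
    have := dg_rec hd hn' (σ.symm v)
    rw [σ.apply_symm_apply] at this
    rw [← this, h0]
  · exact h σ hd hn' hG hk

end Pool.Agent.H8.NO
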